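import Pool.Agent.Y226.ZM.Pkg

/-!
# Combination of several primes
-/

set_option autoImplicit false
set_option linter.unusedSectionVars false

open UpperHalfPlane H294ZP Polynomial

namespace Pool.Agent.Y226.ZM

open Pool.Agent.Y226 Pool.Agent.Y226.ZG

/-- the exponent vectors are independent -/
def Indep {K k : ℕ} (c : Fin K → Fin k → ℤ) : Prop :=
  ∀ S : Finset (Fin K), k ≤ S.card + 1 → ∀ (l : Fin k) (a : Fin k → ℤ), a l = 0 →
    (∀ i ∈ S, ∑ l', a l' * c i l' = 0) → a = 0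

theorem Indep.prop {K k : ℕ} {c : Fin K → Fin k → ℤ} (hc : Indep c) {S : Finset (Fin K)}
    (hS : k ≤ S.card + 1) {a b : Fin k → ℤ} (ha : ∀ i ∈ S, ∑ l', a l' * c i l' = 0)
    (hb : ∀ i ∈ S, ∑ l', b l' * c i l' = 0) (l l' : Fin k) : b l * a l' = a l * b l' := by
  have h1 := hc S hS l (fun l' => b l * a l' - a l * b l') (by ring) (fun i hi => by
    have e : ∀ l', (b l * a l' - a l * b l') * c i l' =
        b l * (a l' * c i l') - a l * (b l' * c i l') := fun l' => by ring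
    simp only [e]
    rw [Finset.sum_sub_distrib, ← Finset.mul_sum, ← Finset.mul_sum, ha i hi, hb i hi]
    ring)
  have h2 := congrFun h1 l'
  simp only [Pi.zero_apply] at h2
  linarith

/-- two primes bound the order -/
theorem order_two {o o₁ o₂ s t G₁ G₂ p q : ℕ} (hp : p.Prime) (hq : q.Prime) (hpq : p ≠ q)
    (h₁ : o = o₁ * p ^ s) (h₂ : o = o₂ * q ^ t) (ho₂ : 0 < o₂) (hG₁ : o₁ ≤ G₁) (hG₂ : o₂ ≤ G₂) :
    o ≤ G₁ * G₂ := by
  have h3 : p ^ s ∣ o₂ * q ^ t := by rw [← h₂, h₁]; exact Dvd.intro_left _ rfl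
  have h4 : (p ^ s).Coprime (q ^ t) := Nat.Coprime.pow _ _ ((Nat.coprime_primes hp hq).2 hpq)
  have h5 : p ^ s ∣ o₂ := h4.dvd_of_dvd_mul_right h3
  rw [h₁]
  exact Nat.mul_le_mul hG₁ ((Nat.le_of_dvd ho₂ h5).trans hG₂)

theorem level_two {N A₁ B₁ g₁ s A₂ B₂ g₂ t W G₁ G₂ p q : ℕ} (hp : p.Prime) (hq : q.Prime)
    (hpq : p ≠ q) (h₁ : N = A₁ * B₁ * (g₁ * p ^ s) ^ 2) (h₂ : N = A₂ * B₂ * (g₂ * q ^ t) ^ 2)
    (hA₁ : A₁ ≤ W) (hB₁ : B₁ ≤ W) (hG₁ : g₁ ≤ G₁) (hA₂ : A₂ ≤ W) (hB₂ : B₂ ≤ W) (hG₂ : g₂ ≤ G₂)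
    (hA₂' : 0 < A₂) (hB₂' : 0 < B₂) (hg₂ : 0 < g₂) : N ≤ W * W * G₁ ^ 2 * (W * W * G₂ ^ 2) := by
  refine order_two (s := 2 * s) (t := 2 * t) hp hq hpq (o₁ := A₁ * B₁ * g₁ ^ 2)
    (o₂ := A₂ * B₂ * g₂ ^ 2) ?_ ?_ (by positivity) ?_ ?_
  · rw [h₁, mul_pow, ← pow_mul, mul_comm s 2]; ring
  · rw [h₂, mul_pow, ← pow_mul, mul_comm t 2]; ring
  · exact Nat.mul_le_mul (Nat.mul_le_mul hA₁ hB₁) (Nat.pow_le_pow_left hG₁ 2)
  · exact Nat.mul_le_mul (Nat.mul_le_mul hA₂ hB₂) (Nat.pow_le_pow_left hG₂ 2)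

/-- extension of an exponent vector -/
def ext (n : ℕ) {k : ℕ} (a : Fin k → ℤ) : Fin (n + k) → ℤ := Fin.append (fun _ => 0) a

theorem ext_left {n k : ℕ} (a : Fin k → ℤ) (j : Fin n) : ext n a (Fin.castAdd k j) = 0 := by
  simp [ext]

theorem ext_right {n k : ℕ} (a : Fin k → ℤ) (l : Fin k) : ext n a (Fin.natAdd n l) = a l := by
  simp [ext]

theorem ext_ne {n k : ℕ} {a : Fin k → ℤ} (ha : a ≠ 0) : ext n a ≠ 0 := by
  intro h
  apply ha
  funext l
  rw [← ext_right (n := n) a l, h]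
  rfl

theorem ext_supp {n k : ℕ} {a : Fin k → ℤ} {Q : Fin (n + k) → Prop}
    (h : ∀ l, a l ≠ 0 → Q (Fin.natAdd n l)) (i : Fin (n + k)) (hi : ext n a i ≠ 0) : Q i := by
  refine Fin.addCases (motive := fun i => ext n a i ≠ 0 → Q i) ?_ ?_ i hi
  · intro j hj
    exact absurd (ext_left a j) hj
  · intro l hl
    rw [ext_right] at hl
    exact h l hl

theorem ext_Bv {n k W : ℕ} {a : Fin k → ℤ} (ha : Bv W a) : Bv W (ext n a) := by
  intro i
  refine Fin.addCases (motive := fun i => |ext n a i| ≤ (W : ℤ)) ?_ ?_ i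
  · intro j
    rw [ext_left]; simp
  · intro l
    rw [ext_right]; exact ha l

theorem prod_ext {F : Type*} [Field F] {n k : ℕ} (x : Fin (n + k) → F) (a : Fin k → ℤ) :
    ∏ i, x i ^ ext n a i = ∏ l, x (Fin.natAdd n l) ^ a l := by
  rw [Fin.prod_univ_add]
  simp only [ext_left, ext_right, zpow_zero, Finset.prod_const_one, one_mul]

theorem sum_ext {n k : ℕ} (v : Fin (n + k) → ℤ) (a : Fin k → ℤ) :
    ∑ i, ext n a i * v i = ∑ l, a l * v (Fin.natAdd n l) := by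
  rw [Fin.sum_univ_add]
  simp only [ext_left, ext_right, zero_mul, Finset.sum_const_zero, zero_add]

/-- powers of monomials -/
theorem prod_zpow_pow {F : Type*} [Field F] {k : ℕ} (x : Fin k → F) (a : Fin k → ℤ) (m : ℤ) :
    (∏ l, x l ^ a l) ^ m = ∏ l, x l ^ (m * a l) := by
  rw [← Finset.prod_zpow]
  refine Finset.prod_congr rfl fun l _ => ?_
  rw [← zpow_mul, mul_comm]

/-- torsion of proportional monomials -/
theorem torsion_prop {F : Type*} [Field F] {k : ℕ} {x : Fin k → F} {a b : Fin k → ℤ}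
    (hab : ∀ l l', b l * a l' = a l * b l') (ha : a ≠ 0) {o : ℕ} (ho : 0 < o)
    (h : (∏ l, x l ^ a l) ^ o = 1) : ∃ o' : ℕ, 0 < o' ∧ (∏ l, x l ^ b l) ^ o' = 1 := by
  obtain ⟨l, hl⟩ : ∃ l, a l ≠ 0 := by
    by_contra hcon
    push Not at hcon
    exact ha (funext hcon)
  have h1 : (∏ l', x l' ^ b l') ^ (a l * o) = 1 := by
    have e1 : (∏ l', x l' ^ b l') ^ a l = (∏ l', x l' ^ a l') ^ b l := by
      rw [prod_zpow_pow, prod_zpow_pow]
      exact Finset.prod_congr rfl fun l' _ => by rw [hab l l']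
    rw [zpow_mul, e1, ← zpow_mul, mul_comm, zpow_mul, zpow_natCast, h, one_zpow]
  refine ⟨(a l * o).natAbs, ?_, ?_⟩
  · rw [Int.natAbs_pos]
    exact mul_ne_zero hl (by exact_mod_cast ho.ne')
  · rcases Int.natAbs_eq (a l * o) with h2 | h2
    · rw [← zpow_natCast, ← h2]; exact h1
    · rw [← zpow_natCast]
      have e : (((a l * o).natAbs : ℕ) : ℤ) = -(a l * o) := by omega
      rw [e, zpow_neg, h1, inv_one]

/-- the hypotheses on a point of an unlikely intersection -/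
structure Atyp {n k r : ℕ} (Γ : Set ℂ) (X : Fin n → ℂ) (U : Fin k → QA)
    (cls : Fin n → Option (Fin r)) (M : Submodule ℤ (Fin k → ℤ)) : Prop where
  const : ∀ j, cls j = none → IsIntegral (Algebra.adjoin ℤ Γ) (X j)
  rel : ∀ j l c, cls j = some c → cls l = some c → ∃ (w w' : ℍ) (a b c' d : ℤ),
    0 < a * d - b * c' ∧ (w' : ℂ) * (c' * w + d) = a * w + b ∧ X j = jj w ∧ X l = jj w'
  tor : ∀ a ∈ M, ∃ o : ℕ, 0 < o ∧ (∏ l, U l ^ a l) ^ o = 1

section

variable {n k K : ℕ} {I : Ideal (MvPolynomial (Fin (n + k)) QA)} {Γ : Set ℂ} {W : ℕ}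
  {p : Fin K → ℕ} {lam mu : Fin n → ℚ} {nu : Fin k → ℚ} {lamu : Fin K → Fin k → ℚ}

/-- the combination of the primes -/
theorem comb (hK3 : 3 ≤ K) (hK : k * (k - 1) ≤ K) {c : Fin K → Fin k → ℤ} (hc : Indep c)
    {bS : Finset (Fin K) → Fin k → ℤ} (hbS : ∀ S, Bv W (bS S))
    (hbS' : ∀ S, (∃ a : Fin k → ℤ, a ≠ 0 ∧ ∀ i ∈ S, ∑ l, a l * c i l = 0) →
      bS S ≠ 0 ∧ ∀ i ∈ S, ∑ l, bS S l * c i l = 0) (hp : ∀ i, (p i).Prime)
    (hpi : Function.Injective p) {f : Fin K → ℕ} (hf : ∀ i, 0 < f i)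
    (hval : ∀ i l, padicValRat (p i) (nu l) = (f i : ℤ) * c i l)
    (pk : ∀ i, Pkg I Γ W (p i) (Fin.append lam (lamu i)) (Fin.append mu (fun _ => 0))
      (Fin.append (fun _ => 1) nu)) :
    ∃ G : ℕ, ∀ P : Fin (n + k) → QA, OnV I P → ∀ (r : ℕ) (cls : Fin n → Option (Fin r))
      (M : Submodule ℤ (Fin k → ℤ)), r + 2 ≤ n + Module.finrank ℤ M → 1 ≤ Module.finrank ℤ M →
      Atyp Γ (fun j => rA ((lam j : QA) * P (Fin.castAdd k j) + mu j))
        (fun l => (nu l : QA) * P (Fin.natAdd n l)) cls M →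
      (∃ j l : Fin n, j ≠ l ∧ ∃ N' : ℕ, 0 < N' ∧ N' ≤ G ∧
        PsiE ιZ (mP N') (mD N') (rA ((lam j : QA) * P (Fin.castAdd k j) + mu j))
          (rA ((lam l : QA) * P (Fin.castAdd k l) + mu l)) = 0) ∨
      ∃ b : Fin k → ℤ, Bv W b ∧ b ≠ 0 ∧ ∃ o : ℕ, 0 < o ∧ o ≤ G ∧
        (∏ l, ((nu l : QA) * P (Fin.natAdd n l)) ^ b l) ^ o = 1 := by
  classical
  set GG := ∑ i, (pk i).G with hGG
  have hGi : ∀ i, (pk i).G ≤ GG := fun i =>
    Finset.single_le_sum (f := fun i => (pk i).G) (fun _ _ => Nat.zero_le _) (Finset.mem_univ i)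
  refine ⟨GG + GG * GG + W * W * GG ^ 2 * (W * W * GG ^ 2), ?_⟩
  intro P hP r cls M hr hM hA
  set X : Fin n → ℂ := fun j => rA ((lam j : QA) * P (Fin.castAdd k j) + mu j) with hX
  set U : Fin k → QA := fun l => (nu l : QA) * P (Fin.natAdd n l) with hU
  -- the bad coordinates
  have hne : ∀ (j : Fin n) (l : Fin k), Fin.castAdd k j ≠ Fin.natAdd n l := by
    intro j l h
    have := congrArg Fin.val h
    simp at this
    omega
  have hninj : ∀ l l' : Fin k, Fin.natAdd n l = Fin.natAdd n l' → l = l' := by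
    intro l l' h
    have := congrArg Fin.val h
    simp at this
    exact Fin.ext this
  have hval' : ∀ i (a : Fin k → ℤ), ∑ j, ext n a j *
      padicValRat (p i) ((Fin.append (fun _ => 1) nu : Fin (n + k) → ℚ) j) =
      f i * ∑ l, a l * c i l := by
    intro i a
    rw [sum_ext, Finset.mul_sum]
    refine Finset.sum_congr rfl fun l _ => ?_
    rw [Fin.append_right, hval]
    ring
  have hprodU : ∀ a : Fin k → ℤ, ∏ j, ((((Fin.append (fun _ => 1) nu : Fin (n + k) → ℚ) j : ℚ) : QA)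
      * P j) ^ ext n a j = ∏ l, U l ^ a l := by
    intro a
    rw [prod_ext (fun j => (((Fin.append (fun _ => 1) nu : Fin (n + k) → ℚ) j : ℚ) : QA) * P j)]
    refine Finset.prod_congr rfl fun l _ => ?_
    rw [Fin.append_right]
  have hXl : ∀ i j, rA ((((Fin.append lam (lamu i) : Fin (n + k) → ℚ) (Fin.castAdd k j) : ℚ) : QA) *
      P (Fin.castAdd k j) + (((Fin.append mu (fun _ => 0) : Fin (n + k) → ℚ) (Fin.castAdd k j) : ℚ) : QA))
      = X j := by
    intro i j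
    rw [Fin.append_left, Fin.append_left]
  -- orthogonality
  have horth : ∀ i, ∀ a : Fin k → ℤ, (∃ o : ℕ, 0 < o ∧ (∏ l, U l ^ a l) ^ o = 1) →
      (∀ l, a l ≠ 0 → ¬ (pk i).bad P (Fin.natAdd n l)) → ∑ l, a l * c i l = 0 := by
    rintro i a ⟨o, ho, h1⟩ ha
    have h2 := (pk i).orth P hP (ext n a) (ext_supp ha) o ho (by rw [hprodU]; exact h1)
    rw [hval'] at h2
    rcases mul_eq_zero.1 h2 with h3 | h3
    · have := hf i
      exact absurd h3 (by exact_mod_cast this.ne')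
    · exact h3
  have hconst : ∀ i j, cls j = none → (pk i).bad P (Fin.castAdd k j) := by
    intro i j hj
    refine (pk i).const P hP _ ?_
    rw [hXl]
    exact hA.const j hj
  set S : Finset (Fin K) := Finset.univ.filter (fun i => ∀ l, ¬ (pk i).bad P (Fin.natAdd n l))
    with hSdef
  have hS : ∀ i ∈ S, ∀ l, ¬ (pk i).bad P (Fin.natAdd n l) := fun i hi => (Finset.mem_filter.1 hi).2
  have hSc : ∀ i ∈ Sᶜ, ∃ l, (pk i).bad P (Fin.natAdd n l) := by
    intro i hi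
    rw [Finset.mem_compl, Finset.mem_filter] at hi
    push Not at hi
    exact hi (Finset.mem_univ i)
  have hcard : S.card + Sᶜ.card = K := by
    rw [Finset.card_add_card_compl, Fintype.card_fin]
  -- the rank is at most one
  have hM1 : Module.finrank ℤ M ≤ 1 := by
    by_contra hcon
    push Not at hcon
    obtain ⟨g, hg⟩ := exists_linearIndependent_of_le_finrank (R := ℤ) (M := M) (n := 2) (by omega)
    have hind : ∀ s t : ℤ, s • (g 0 : Fin k → ℤ) + t • (g 1 : Fin k → ℤ) = 0 → s = 0 ∧ t = 0 := by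
      intro s t hst
      rw [Fintype.linearIndependent_iff] at hg
      have h1 := hg ![s, t] (by
        rw [Fin.sum_univ_two]
        exact Subtype.ext hst)
      exact ⟨h1 0, h1 1⟩
    have hkey : ∀ S' : Finset (Fin K), k ≤ S'.card + 1 → (∀ a ∈ M, ∀ i ∈ S', ∑ l, a l * c i l = 0) →
        False := by
      intro S' hS' hor
      have h1 := hc.prop hS' (hor _ (g 0).2) (hor _ (g 1).2)
      have h2 : ∀ l, (g 1 : Fin k → ℤ) l = 0 ∧ (-(g 0 : Fin k → ℤ) l) = 0 := by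
        intro l
        refine hind _ _ ?_
        funext l'
        have := h1 l l'
        simp only [Pi.add_apply, Pi.smul_apply, smul_eq_mul, Pi.zero_apply]
        linarith
      have h3 := hind 0 1 (by
        funext l'
        simp [(h2 l').1])
      exact one_ne_zero h3.2
    by_cases h1 : k ≤ S.card + 1
    · exact hkey S h1 fun a ha i hi => horth i a (hA.tor a ha) fun l _ => hS i hi l
    · push Not at h1
      haveI : Nonempty (Fin k) := ⟨⟨0, by omega⟩⟩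
      choose! lb hlb using hSc
      obtain ⟨l, -, hl⟩ := Finset.exists_lt_card_fiber_of_mul_lt_card_of_maps_to
        (s := Sᶜ) (t := (Finset.univ : Finset (Fin k))) (f := lb) (n := k - 2)
        (fun _ _ => Finset.mem_univ _) (by
          rw [Finset.card_univ, Fintype.card_fin]
          obtain ⟨k', rfl⟩ : ∃ k', k = k' + 2 := ⟨k - 2, by omega⟩
          have e1 : k' + 2 - 2 = k' := by omega
          have e2 : k' + 2 - 1 = k' + 1 := by omega
          rw [e1]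
          rw [e2] at hK
          nlinarith)
      set S' := Sᶜ.filter (fun i => lb i = l) with hS'
      have hS'k : k ≤ S'.card + 1 := by omega
      have hor : ∀ a ∈ M, a l = 0 → a = 0 := by
        intro a ha hal
        refine hc S' hS'k l a hal fun i hi => ?_
        obtain ⟨hi1, hi2⟩ := Finset.mem_filter.1 hi
        refine horth i a (hA.tor a ha) fun l' hl' hbad => ?_
        have h2 := (pk i).one P hP _ _ hbad (hlb i hi1)
        rw [hi2] at h2
        have h3 := hninj _ _ h2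
        rw [h3] at hl'
        exact hl' hal
      have h2 := hor ((g 1 : Fin k → ℤ) l • (g 0 : Fin k → ℤ) + (-(g 0 : Fin k → ℤ) l) • (g 1 : Fin k → ℤ))
        (M.add_mem (M.smul_mem _ (g 0).2) (M.smul_mem _ (g 1).2)) (by
          simp only [Pi.add_apply, Pi.smul_apply, smul_eq_mul]
          ring)
      have h3 := hind _ _ h2
      have h4 := hor _ (g 1).2 h3.1
      have h5 := hind 0 1 (by rw [h4]; simp)
      exact one_ne_zero h5.2
  have hrn : r + 1 ≤ n := by omega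
  -- a relation
  obtain ⟨a, haM, ha0⟩ : ∃ a ∈ M, a ≠ 0 := by
    by_contra hcon
    push Not at hcon
    have h1 : M = ⊥ := (Submodule.eq_bot_iff M).2 hcon
    rw [h1, finrank_bot] at hM
    omega
  -- the pair of isogenous coordinates
  have hpair : (∀ j, cls j ≠ none) → ∃ j l : Fin n, j ≠ l ∧ ∃ (w w' : ℍ) (a b c' d : ℤ),
      0 < a * d - b * c' ∧ (w' : ℂ) * (c' * w + d) = a * w + b ∧ X j = jj w ∧ X l = jj w' := by
    intro hno
    obtain ⟨j, -, l, -, hjl, cc, hc1, hc2⟩ := coll cls Finset.univ (by simpa using hrn)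
      (fun x _ => hno x)
    exact ⟨j, l, hjl, hA.rel j l cc hc1 hc2⟩
  by_cases hSc2 : 2 ≤ Sᶜ.card
  · -- two primes where a torus coordinate is bad
    left
    obtain ⟨i, hi, i', hi', hii'⟩ := Finset.one_lt_card.1 (show 1 < Sᶜ.card by omega)
    obtain ⟨l₁, hl₁⟩ := hSc i hi
    obtain ⟨l₂, hl₂⟩ := hSc i' hi'
    have hno : ∀ j, cls j ≠ none := fun j hj =>
      hne j l₁ ((pk i).one P hP _ _ (hconst i j hj) hl₁)
    obtain ⟨j, l, hjl, w, w', a', b', c', d, hdet, hww, hXj, hXl'⟩ := hpair hno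
    have hΨex : ∃ N₀ : ℕ, 0 < N₀ ∧ PsiE ιZ (mP N₀) (mD N₀) (jj w) (jj w') = 0 := by
      obtain ⟨N, hN⟩ : ∃ N : ℕ, (N : ℤ) = a' * d - b' * c' :=
        ⟨(a' * d - b' * c').toNat, by omega⟩
      have hN0 : 0 < N := by
        have : (0 : ℤ) < N := by rw [hN]; exact hdet
        exact_mod_cast this
      obtain ⟨-, -, -, -, -, -, -, -, -, -, h5⟩ := modular_spec N hN0
      exact ⟨N, hN0, h5 w w' a' b' c' d hN.symm hww⟩
    set N₀ := Nat.find hΨex with hN₀
    obtain ⟨hN₀0, hN₀Ψ⟩ := Nat.find_spec hΨex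
    have hmin : ∀ N', 0 < N' → PsiE ιZ (mP N') (mD N') (jj w) (jj w') = 0 → N₀ ≤ N' :=
      fun N' h1 h2 => Nat.find_min' hΨex ⟨h1, h2⟩
    have hgood : ∀ (i : Fin K) (l₁ : Fin k), (pk i).bad P (Fin.natAdd n l₁) → ∀ j : Fin n,
        ¬ (pk i).bad P (Fin.castAdd k j) := fun i l₁ h1 j h2 =>
      hne j l₁ ((pk i).one P hP _ _ h2 h1)
    obtain ⟨A₁, B₁, g₁, s₁, hA₁, hB₁, hAW₁, hBW₁, hg₁, -, hN₁, hb₁⟩ := (pk i).level P hP
      (Fin.castAdd k j) (Fin.castAdd k l) (hgood i l₁ hl₁ j) (hgood i l₁ hl₁ l) w w'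
      (by rw [hXl]; exact hXj) (by rw [hXl]; exact hXl') N₀ hN₀0 hN₀Ψ hmin
    obtain ⟨A₂, B₂, g₂, s₂, hA₂, hB₂, hAW₂, hBW₂, hg₂, -, hN₂, hb₂⟩ := (pk i').level P hP
      (Fin.castAdd k j) (Fin.castAdd k l) (hgood i' l₂ hl₂ j) (hgood i' l₂ hl₂ l) w w'
      (by rw [hXl]; exact hXj) (by rw [hXl]; exact hXl') N₀ hN₀0 hN₀Ψ hmin
    have h1 := level_two (hp i) (hp i') (fun h => hii' (hpi h)) hN₁ hN₂ hAW₁ hBW₁
      ((hb₁ ⟨_, hl₁⟩).trans (hGi i)) hAW₂ hBW₂ ((hb₂ ⟨_, hl₂⟩).trans (hGi i')) hA₂ hB₂ hg₂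
    refine ⟨j, l, hjl, N₀, hN₀0, h1.trans (Nat.le_add_left _ _), ?_⟩
    show PsiE ιZ (mP N₀) (mD N₀) (X j) (X l) = 0
    rw [hXj, hXl']
    exact hN₀Ψ
  · -- the exponent vector is known
    have hScard : K ≤ S.card + 1 := by omega
    have hkS : k ≤ S.card + 1 := by
      rcases Nat.lt_or_ge k 2 with h | h
      · omega
      · obtain ⟨k', rfl⟩ : ∃ k', k = k' + 2 := ⟨k - 2, by omega⟩
        have e2 : k' + 2 - 1 = k' + 1 := by omega
        rw [e2] at hK
        nlinarith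
    have haor : ∀ i ∈ S, ∑ l, a l * c i l = 0 := fun i hi =>
      horth i a (hA.tor a haM) fun l _ => hS i hi l
    obtain ⟨hb0, hbor⟩ := hbS' S ⟨a, ha0, haor⟩
    set b := bS S with hb
    obtain ⟨o₀, ho₀, ho₀'⟩ := hA.tor a haM
    obtain ⟨o₁, ho₁, ho₁'⟩ := torsion_prop (hc.prop hkS haor hbor) ha0 ho₀ ho₀'
    set ρ := ∏ l, U l ^ b l with hρ
    set o := orderOf ρ with ho
    have ho0 : 0 < o := orderOf_pos_iff.2 (isOfFinOrder_iff_pow_eq_one.2 ⟨o₁, ho₁, ho₁'⟩)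
    have hprim : IsPrimitiveRoot ρ o := IsPrimitiveRoot.orderOf ρ
    have hbW := ext_Bv (n := n) (hbS S)
    have hbv : ∀ i ∈ S, ∑ j, ext n b j *
      padicValRat (p i) ((Fin.append (fun _ => 1) nu : Fin (n + k) → ℚ) j) = 0 := by
      intro i hi
      rw [hval', hbor i hi, mul_zero]
    by_cases hex : (∀ j, cls j ≠ none) ∧ ∃ i ∈ S, ∀ j, ¬ (pk i).bad P j
    · left
      obtain ⟨hno, i, hi, hall⟩ := hex
      obtain ⟨j, l, hjl, w, w', a', b', c', d, hdet, hww, hXj, hXl'⟩ := hpair hno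
      obtain ⟨N', h1, h2, h3⟩ := (pk i).mix P hP (ext n b) hbW (ext_ne hb0) (hbv i hi) hall
        (Fin.castAdd k j) (Fin.castAdd k l) (by
          intro h
          apply hjl
          have := congrArg Fin.val h
          simp at this
          exact Fin.ext this) (ext_left b j) (ext_left b l) w w' a' b' c' d hdet hww
        (by rw [hXl]; exact hXj) (by rw [hXl]; exact hXl') ρ o ho0 hprim (hprodU b)
      refine ⟨j, l, hjl, N', h1, ?_, ?_⟩
      · have := hGi i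
        calc N' ≤ GG := h2.trans this
          _ ≤ GG + GG * GG := Nat.le_add_right _ _
          _ ≤ _ := Nat.le_add_right _ _
      · show PsiE ιZ (mP N') (mD N') (X j) (X l) = 0
        rw [hXj, hXl']
        exact h3
    · right
      have hbad : ∀ i ∈ S, ∃ j, (pk i).bad P j := by
        intro i hi
        by_contra hcon
        push Not at hcon
        refine hex ⟨fun j hj => hcon _ (hconst i j hj), i, hi, hcon⟩
      obtain ⟨i, hi, i', hi', hii'⟩ := Finset.one_lt_card.1 (show 1 < S.card by omega)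
      obtain ⟨o', s, h1, h2, -, h3⟩ := (pk i).mulb P hP (ext n b) hbW (hbv i hi) (hbad i hi)
        (ext_supp fun l _ => hS i hi l) ρ o ho0 hprim (hprodU b)
      obtain ⟨o'', s', h1', h2', -, h3'⟩ := (pk i').mulb P hP (ext n b) hbW (hbv i' hi')
        (hbad i' hi') (ext_supp fun l _ => hS i' hi' l) ρ o ho0 hprim (hprodU b)
      have h4 := order_two (hp i) (hp i') (fun h => hii' (hpi h)) h3 h3' h1' (h2.trans (hGi i))
        (h2'.trans (hGi i'))
      refine ⟨b, hbS S, hb0, o, ho0, ?_, hprim.pow_eq_one⟩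
      calc o ≤ GG * GG := h4
        _ ≤ GG + GG * GG := Nat.le_add_left _ _
        _ ≤ _ := Nat.le_add_right _ _

end

end Pool.Agent.Y226.ZM
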