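import Pool.Agent.Y226.ZM.Core

/-!
# The pure part: curves in `Y(1)^n` and special subvarieties with integral constants
-/

set_option autoImplicit false
set_option linter.unusedSectionVars false

open UpperHalfPlane H294ZP Polynomial

namespace Pool.Agent.Y226.ZM

open Pool.Agent.Y226 Pool.Agent.Y226.ZG

/-- A special subvariety with constants integral over the ring generated by `Γ`. -/
structure SV (Γ : Set ℂ) (n r : ℕ) where
  cls : Fin n → Option (Fin r)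
  mat : Fin n → Matrix (Fin 2) (Fin 2) ℤ
  det_pos : ∀ i, 0 < (mat i).det
  const : Fin n → ℂ
  int : ∀ i, IsIntegral (Algebra.adjoin ℤ Γ) (const i)

/-- its points -/
def SV.locus {Γ : Set ℂ} {n r : ℕ} (Z : SV Γ n r) : Set (Fin n → ℂ) :=
  {x | ∃ z : Fin r → ℍ, ∀ i, (Z.cls i = none → x i = Z.const i) ∧
    ∀ l, Z.cls i = some l → ∃ w : ℍ,
      (w : ℂ) * (Z.mat i 1 0 * z l + Z.mat i 1 1) = Z.mat i 0 0 * z l + Z.mat i 0 1 ∧
      x i = jj w}

/-- two coordinates of the same class, uniformly -/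
theorem SV.rel_unif {Γ : Set ℂ} {n r : ℕ} (Z : SV Γ n r) {i i' : Fin n} {k : Fin r}
    (hi : Z.cls i = some k) (hi' : Z.cls i' = some k) : ∃ a b c d : ℤ, 0 < a * d - b * c ∧
      ∀ x ∈ Z.locus, ∃ w w' : ℍ, (w' : ℂ) * (c * w + d) = a * w + b ∧ x i = jj w ∧ x i' = jj w' := by
  have hdet := Z.det_pos i
  have hdet' := Z.det_pos i'
  rw [Matrix.det_fin_two] at hdet hdet'
  refine ⟨Z.mat i' 0 0 * Z.mat i 1 1 - Z.mat i' 0 1 * Z.mat i 1 0,
    -(Z.mat i' 0 0 * Z.mat i 0 1) + Z.mat i' 0 1 * Z.mat i 0 0,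
    Z.mat i' 1 0 * Z.mat i 1 1 - Z.mat i' 1 1 * Z.mat i 1 0,
    -(Z.mat i' 1 0 * Z.mat i 0 1) + Z.mat i' 1 1 * Z.mat i 0 0, ?_, ?_⟩
  · generalize Z.mat i 0 0 = a at *
    generalize Z.mat i 0 1 = b at *
    generalize Z.mat i 1 0 = c at *
    generalize Z.mat i 1 1 = d at *
    generalize Z.mat i' 0 0 = a' at *
    generalize Z.mat i' 0 1 = b' at *
    generalize Z.mat i' 1 0 = c' at *
    generalize Z.mat i' 1 1 = d' at *
    have : (a' * d - b' * c) * (-(c' * b) + d' * a) - (-(a' * b) + b' * a) * (c' * d - d' * c) =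
        (a * d - b * c) * (a' * d' - b' * c') := by ring
    rw [this]
    exact mul_pos hdet hdet'
  · intro x hx
    obtain ⟨z, hz⟩ := hx
    obtain ⟨w, hw, hxw⟩ := (hz i).2 k hi
    obtain ⟨w', hw', hxw'⟩ := (hz i').2 k hi'
    have hn := denom_ne (z := z k) hdet
    refine ⟨w, w', ?_, hxw, hxw'⟩
    have key : (w' : ℂ) * (((Z.mat i' 1 0 * Z.mat i 1 1 - Z.mat i' 1 1 * Z.mat i 1 0 : ℤ) : ℂ) * w +
        ((-(Z.mat i' 1 0 * Z.mat i 0 1) + Z.mat i' 1 1 * Z.mat i 0 0 : ℤ) : ℂ)) *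
        ((Z.mat i 1 0 : ℂ) * z k + Z.mat i 1 1) =
        (((Z.mat i' 0 0 * Z.mat i 1 1 - Z.mat i' 0 1 * Z.mat i 1 0 : ℤ) : ℂ) * w +
        ((-(Z.mat i' 0 0 * Z.mat i 0 1) + Z.mat i' 0 1 * Z.mat i 0 0 : ℤ) : ℂ)) *
        ((Z.mat i 1 0 : ℂ) * z k + Z.mat i 1 1) := by
      push_cast
      linear_combination ((w' : ℂ) * ((Z.mat i' 1 0 : ℂ) * Z.mat i 1 1 -
        Z.mat i' 1 1 * Z.mat i 1 0) - ((Z.mat i' 0 0 : ℂ) * Z.mat i 1 1 -
        Z.mat i' 0 1 * Z.mat i 1 0)) * hw +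
        ((Z.mat i 0 0 : ℂ) * Z.mat i 1 1 - Z.mat i 0 1 * Z.mat i 1 0) * hw'
    exact mul_right_cancel₀ hn key

/-- integral constants are algebraic -/
theorem int_alg {Γ : Finset ℂ} (hΓ : ∀ γ ∈ Γ, IsAlgebraic ℚ γ) : ∀ c : ℂ,
    IsIntegral (Algebra.adjoin ℤ (Γ : Set ℂ)) c → ∃ s : QA, rA s = c := by
  intro c hc
  have hle : ∀ z ∈ Algebra.adjoin ℤ (Γ : Set ℂ), IsAlgebraic ℚ z := by
    intro z hz
    refine Algebra.adjoin_induction (p := fun z _ => IsAlgebraic ℚ z) ?_ ?_ ?_ ?_ hz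
    · exact fun γ hγ => hΓ γ hγ
    · intro r
      have h : IsAlgebraic ℚ (algebraMap ℚ ℂ (r : ℚ)) := isAlgebraic_algebraMap (r : ℚ)
      simpa using h
    · intro x y _ _ hx hy
      exact hx.add hy
    · intro x y _ _ hx hy
      exact hx.mul hy
  obtain ⟨P, hP, hPc⟩ := hc
  let g : Algebra.adjoin ℤ (Γ : Set ℂ) →+* QA :=
    { toFun := fun z => ⟨z, mem_QA.2 (hle z z.2)⟩
      map_one' := rfl
      map_mul' := fun _ _ => rfl
      map_zero' := rfl
      map_add' := fun _ _ => rfl }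
  refine root_algebraic (g := P.map g) (hP.map g).ne_zero ?_
  unfold ev
  rw [Polynomial.map_map, eval_map]
  exact hPc

/-- the main theorem over the algebraic numbers -/
theorem main_QA3 {n : ℕ} (I : Ideal (MvPolynomial (Fin n) QA)) (hIp : I.IsPrime)
    (hconst : ∀ (i : Fin n) (c : QA), MvPolynomial.X i - MvPolynomial.C c ∉ I)
    (hgen : ∀ i j, i ≠ j → ∃ (a b : ℕ) (g : QA[X][X]), Cor4 a b g ∧
      E2 MvPolynomial.C (MvPolynomial.X i) (MvPolynomial.X j) g ∈ I) (W : ℕ) (Γ : Finset ℂ)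
    (hΓ : ∀ γ ∈ Γ, IsAlgebraic ℚ γ) : ∃ D : ℕ, ∀ lam mu : Fin n → ℚ, (∃ (p e : ℕ) (w : Fin n → ℕ), p.Prime ∧ D < p ∧ 0 < e ∧
      ∀ i, 0 < w i ∧ w i ≤ W ∧ padicValRat p (lam i) = -((w i : ℤ) * e) ∧
        padicValRat p (lam i) < padicValRat p (mu i)) →
      {x : Fin n → ℂ | (∃ y ∈ VC I, ∀ i, x i = lam i * y i + mu i) ∧
        ∃ (r : ℕ) (Z : SV (Γ : Set ℂ) n r), r + 2 ≤ n ∧ x ∈ Z.locus}.Finite ∧
      ∀ (r : ℕ) (Z : SV (Γ : Set ℂ) n r), r < n →
        ¬ {x : Fin n → ℂ | ∃ y ∈ VC I, ∀ i, x i = lam i * y i + mu i} ⊆ Z.locus := by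
  classical
  haveI := hIp
  obtain ⟨𝔽, _, _, x, hx1, hx2⟩ := ff_of_prime I
  obtain ⟨𝒞, h𝒞⟩ := exists_GP x hx1 (fun i => by
      intro halg
      obtain ⟨r, hr, hr0⟩ := halg
      obtain ⟨c, hc⟩ := root_const (algebraMap QA 𝔽) hr hr0
      apply hconst i c
      rw [← hx2, map_sub, MvPolynomial.aeval_X, MvPolynomial.aeval_C, hc, sub_self])
    (fun i j hij => by
      obtain ⟨a, b, g, hg, hgI⟩ := hgen i j hij
      refine ⟨a, b, g, hg, ?_⟩
      rw [← hx2, aeval_E2, MvPolynomial.aeval_X, MvPolynomial.aeval_X] at hgI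
      exact hgI)
  subst h𝒞
  obtain ⟨D₀, hD₀⟩ := exists_loc 𝒞 hx2 W
  -- zeros of functions
  have hcoord : ∀ f, f ∉ I → ∀ i, ∃ q : QA[X], q ≠ 0 ∧ ∀ y ∈ VC I,
      MvPolynomial.eval₂ rA y f = 0 → ev q (y i) = 0 := by
    intro f hf i
    obtain ⟨q, hq, hq'⟩ := coord_poly 𝒞 (fun h => hf ((hx2 f).1 h)) i
    refine ⟨q, hq, fun y hy hfy => ?_⟩
    have := hq' ℂ rA y (fun g hg => hy g ((hx2 g).1 hg)) hfy
    unfold ev
    rwa [eval_map]
  have hzfin : ∀ f, f ∉ I → {y | y ∈ VC I ∧ MvPolynomial.eval₂ rA y f = 0}.Finite := by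
    intro f hf
    choose q hq hq' using hcoord f hf
    refine Set.Finite.subset (Set.Finite.pi' fun i => ((q i).map rA).rootSet_finite ℂ) ?_
    rintro y ⟨hy, hfy⟩ i
    rw [mem_rootSet]
    refine ⟨(Polynomial.map_ne_zero_iff rA.injective).2 (hq i), ?_⟩
    rw [coe_aeval_eq_eval]
    exact hq' i y hy hfy
  have hzalg : ∀ f, f ∉ I → ∀ y ∈ VC I, MvPolynomial.eval₂ rA y f = 0 →
      ∃ s : Fin n → QA, (fun i => rA (s i)) = y ∧ ∀ g ∈ I, MvPolynomial.eval s g = 0 := by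
    intro f hf y hy hfy
    have h1 : ∀ i, ∃ s : QA, rA s = y i := by
      intro i
      obtain ⟨q, hq, hq'⟩ := hcoord f hf i
      exact root_algebraic hq (hq' y hy hfy)
    choose s hs using h1
    have hsy : (fun i => rA (s i)) = y := funext hs
    refine ⟨s, hsy, fun g hg => ?_⟩
    have h2 := hy g hg
    rw [← hsy, eval₂_rA] at h2
    exact (map_eq_zero rA).1 h2
  choose cc hcc using int_alg hΓ
  choose Di hDi using integral_large
  have hΓ' : ∀ γ : ℂ, ∃ c : QA, IsAlgebraic ℚ γ → rA c = γ := by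
    intro γ
    by_cases h : IsAlgebraic ℚ γ
    · exact ⟨⟨γ, mem_QA.2 h⟩, fun _ => rfl⟩
    · exact ⟨0, fun h' => absurd h' h⟩
  choose gg hgg using hΓ'
  refine ⟨D₀ + ∑ γ ∈ Γ, Di (gg γ), ?_⟩
  rintro lam mu ⟨p, e, w, hp, hDp, he, hw⟩
  haveI hpf : Fact p.Prime := ⟨hp⟩
  obtain ⟨C, _, _, _, _, _, φ, hpn⟩ := exists_padic p
  have hpR : (1 : ℝ) < p := by exact_mod_cast hp.one_lt
  have hp0 : 0 < ‖(p : C)‖ := by rw [hpn]; exact inv_pos.2 (by linarith)
  have hp1 : ‖(p : C)‖ < 1 := by rw [hpn]; exact inv_lt_one_of_one_lt₀ hpR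
  obtain ⟨k, _, _, _, red, hker⟩ := exists_residue2 (C := C) (p := p) hp1
  obtain ⟨M, d, D, 𝓛, hφ, hΛ, htm, hPt, hunit⟩ := hD₀ p (by omega) C φ hp0 hp1 k red hker lam mu w e he
    (fun i => ⟨(hw i).1, (hw i).2.1⟩) (fun i => (hw i).2.2.1) (fun i => (hw i).2.2.2)
  have hlam0 : ∀ i, lam i ≠ 0 := by
    intro i h0
    have h1 : (𝓛.Λ i : C) = 0 := by
      rw [hΛ, h0, Rat.cast_zero]
    exact (𝓛.Λ i).ne_zero h1
  have hlamQ : ∀ i, (lam i : QA) ≠ 0 := fun i => by exact_mod_cast hlam0 i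
  have hlamC : ∀ i, (lam i : ℂ) ≠ 0 := fun i => by exact_mod_cast hlam0 i
  -- the modular polynomials
  have hΨI : ∀ j k, j ≠ k → ∀ N, 0 < N → PsiM lam mu j k N ∉ I := by
    intro j k hjk N hN hmem
    rw [← hx2] at hmem
    refine psi_pole 𝒞 iA hjk hN (a := (lam j : QA)) (b := (mu j : QA)) (b' := (mu k : QA))
      (hlamQ k) ?_
    rw [← hmem]
    show _ = ((MvPolynomial.aeval 𝒞.x : MvPolynomial (Fin n) QA →ₐ[QA] 𝔽).toRingHom)
      (PsiM lam mu j k N)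
    unfold PsiM
    rw [map_PsiE]
    have e1 : (((MvPolynomial.aeval 𝒞.x : MvPolynomial (Fin n) QA →ₐ[QA] 𝔽).toRingHom).comp
        ((MvPolynomial.C : QA →+* MvPolynomial (Fin n) QA).comp iA)) =
        (algebraMap QA 𝔽).comp iA := by
      refine RingHom.ext fun z => ?_
      show MvPolynomial.aeval 𝒞.x (MvPolynomial.C (iA z)) = _
      rw [MvPolynomial.aeval_C]
      rfl
    have e2 : ∀ c d : QA, ∀ i, ((MvPolynomial.aeval 𝒞.x : MvPolynomial (Fin n) QA →ₐ[QA] 𝔽).toRingHom)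
        (MvPolynomial.C c * MvPolynomial.X i + MvPolynomial.C d) =
        algebraMap QA 𝔽 c * 𝒞.x i + algebraMap QA 𝔽 d := by
      intro c d i
      show MvPolynomial.aeval 𝒞.x (MvPolynomial.C c * MvPolynomial.X i + MvPolynomial.C d) = _
      rw [map_add, map_mul, MvPolynomial.aeval_C, MvPolynomial.aeval_C, MvPolynomial.aeval_X]
    rw [e1, e2, e2]
  have hcmI : ∀ (i : Fin n) (c₀ : ℂ), IsIntegral (Algebra.adjoin ℤ (Γ : Set ℂ)) c₀ →
      ∃ f, f ∉ I ∧ ∀ y : Fin n → ℂ,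
      (lam i : ℂ) * y i + mu i = c₀ → MvPolynomial.eval₂ rA y f = 0 := by
    intro i c₀ hint
    set c : QA := cc c₀ hint with hcdef
    have hcx : rA c = c₀ := hcc c₀ hint
    refine ⟨_, hconst i ((c - mu i) / lam i), fun y hy => ?_⟩
    rw [MvPolynomial.eval₂_sub, MvPolynomial.eval₂_X, MvPolynomial.eval₂_C, map_div₀, map_sub, hcx,
      map_ratCast, map_ratCast, ← hy]
    have := hlamC i
    field_simp
    ring
  have hint1 : ∀ X : QA, IsIntegral (Algebra.adjoin ℤ (Γ : Set ℂ)) (rA X) → ‖φ X‖ ≤ 1 := by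
    intro X hX
    refine norm_le_one_of_adjoin φ (fun γ hγ => ⟨gg γ, hgg γ (hΓ γ hγ), ?_⟩) hX
    refine hDi (gg γ) p ?_ C φ hp1
    have : Di (gg γ) ≤ ∑ γ ∈ Γ, Di (gg γ) :=
      Finset.single_le_sum (f := fun γ => Di (gg γ)) (fun _ _ => Nat.zero_le _) hγ
    omega
  have hcollI : ∀ {r : ℕ} (Z : SV (Γ : Set ℂ) n r) {j k : Fin n}, j ≠ k →
      (∃ c, Z.cls j = some c ∧ Z.cls k = some c) → ∃ N, 0 < N ∧
      ∀ y : Fin n → ℂ, (fun i => (lam i : ℂ) * y i + mu i) ∈ Z.locus →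
        MvPolynomial.eval₂ rA y (PsiM lam mu j k N) = 0 := by
    rintro r Z j k hjk ⟨c, hcj, hck⟩
    obtain ⟨a', b', c', d', hdet, hrel⟩ := Z.rel_unif hcj hck
    obtain ⟨N, hN⟩ : ∃ N : ℕ, (N : ℤ) = a' * d' - b' * c' :=
      ⟨(a' * d' - b' * c').toNat, by omega⟩
    have hN0 : 0 < N := by
      have : (0 : ℤ) < N := by rw [hN]; exact hdet
      exact_mod_cast this
    refine ⟨N, hN0, fun y hy => ?_⟩
    obtain ⟨w, w', hww, hw, hw'⟩ := hrel _ hy
    obtain ⟨-, -, -, -, -, -, -, -, -, -, h5⟩ := modular_spec N hN0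
    have hΨ := h5 w w' a' b' c' d' hN.symm hww
    rw [← hw, ← hw'] at hΨ
    rw [PsiM_eval₂]
    exact hΨ
  refine ⟨?_, ?_⟩
  · -- finiteness
    obtain ⟨G, hG⟩ := 𝓛.local_core
    have hf : ∀ q : Fin n × Fin n × ℕ, ∃ f, f ∉ I ∧ (q.1 ≠ q.2.1 → 0 < q.2.2 →
        f = PsiM lam mu q.1 q.2.1 q.2.2) := by
      rintro ⟨j, k, N⟩
      by_cases h : j ≠ k ∧ 0 < N
      · exact ⟨_, hΨI j k h.1 N h.2, fun _ _ => rfl⟩
      · exact ⟨1, fun h1 => hIp.ne_top ((Ideal.eq_top_iff_one I).2 h1),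
          fun h1 h2 => absurd ⟨h1, h2⟩ h⟩
    choose f hf0 hf1 using hf
    have hfin : (⋃ q ∈ (Finset.univ ×ˢ Finset.univ ×ˢ Finset.range (G + 1) :
        Finset (Fin n × Fin n × ℕ)), (fun (y : Fin n → ℂ) (i : Fin n) => (lam i : ℂ) * y i + mu i) ''
          {y | y ∈ VC I ∧ MvPolynomial.eval₂ rA y (f q) = 0}).Finite :=
      Set.Finite.biUnion (Finset.finite_toSet _) fun q _ => (hzfin _ (hf0 q)).image _
    refine hfin.subset ?_
    rintro x ⟨⟨y, hy, hxy⟩, r, Z, hr, hZ⟩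
    have hxy' : x = fun i => (lam i : ℂ) * y i + mu i := funext hxy
    -- the point is algebraic
    have halg : ∃ s : Fin n → QA, (fun i => rA (s i)) = y ∧ ∀ g ∈ I, MvPolynomial.eval s g = 0 := by
      by_cases hall : ∃ i, Z.cls i = none
      · obtain ⟨i, hi⟩ := hall
        have hxi : x i = Z.const i := by
          obtain ⟨w, hw⟩ := hZ
          exact (hw i).1 hi
        obtain ⟨f, hf, hf'⟩ := hcmI i _ (Z.int i)
        exact hzalg f hf y hy (hf' y (by rw [← hxy, hxi]))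
      · push Not at hall
        obtain ⟨j, -, k, -, hjk, hc⟩ := coll Z.cls Finset.univ (by simp; omega)
          (fun x _ => hall x)
        obtain ⟨N, hN, hΨ⟩ := hcollI Z hjk hc
        exact hzalg _ (hΨI j k hjk N hN) y hy (hΨ y (by rw [← hxy']; exact hZ))
    obtain ⟨s, hsy, hsI⟩ := halg
    have hPts := hPt s hsI
    have hxs : (fun i => rA ((lam i : QA) * s i + mu i)) = x := by
      rw [hxy']
      funext i
      rw [map_add, map_mul, map_ratCast, map_ratCast, ← hsy]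
    obtain ⟨j, l, hjl, N, hN0, hN, hΨ⟩ := hG (fun i => (lam i : QA) * s i + mu i)
      (fun i => φ (s i)) hPts
      (fun i => by rw [hφ, map_add, map_mul, map_ratCast, map_ratCast, hΛ, htm]) r Z.cls hr (by
        intro i hi
        rw [hφ]
        refine hint1 _ ?_
        have h1 : rA ((lam i : QA) * s i + mu i) = Z.const i := by
          rw [congrFun hxs i]
          obtain ⟨w, hw⟩ := hZ
          exact (hw i).1 hi
        rw [h1]
        exact Z.int i) (by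
        intro j l c hcj hcl
        obtain ⟨a', b', c', d', hdet, hrel⟩ := Z.rel_unif hcj hcl
        obtain ⟨w, w', hww, hw, hw'⟩ := hrel _ hZ
        exact ⟨w, w', a', b', c', d', hdet, hww, by rw [← hw]; exact congrFun hxs j,
          by rw [← hw']; exact congrFun hxs l⟩)
    rw [Set.mem_iUnion₂]
    refine ⟨(j, l, N), ?_, y, ⟨hy, ?_⟩, hxy'.symm⟩
    · simp only [Finset.mem_product, Finset.mem_univ, Finset.mem_range, true_and]
      omega
    · rw [hf1 (j, l, N) hjl hN0]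
      show MvPolynomial.eval₂ rA y (PsiM lam mu j l N) = 0
      rw [PsiM_eval₂]
      rw [map_add, map_add, map_mul, map_mul, map_ratCast, map_ratCast, map_ratCast,
        map_ratCast] at hΨ
      rw [← hsy]
      exact hΨ
  · -- the curve is not contained in a proper special subvariety
    intro r Z hr hsub
    have hvan : ∀ f, (∀ y ∈ VC I, MvPolynomial.eval₂ rA y f = 0) → f ∈ I := by
      intro f hf
      have h1 : f ∈ MvPolynomial.vanishingIdeal QA (MvPolynomial.zeroLocus ℂ I) := fun y hy =>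
        hf y hy
      rwa [MvPolynomial.IsPrime.vanishingIdeal_zeroLocus] at h1
    have hmem : ∀ y ∈ VC I, (fun i => (lam i : ℂ) * y i + mu i) ∈ Z.locus := fun y hy =>
      hsub ⟨y, hy, fun _ => rfl⟩
    by_cases hall : ∃ i, Z.cls i = none
    · obtain ⟨i, hi⟩ := hall
      obtain ⟨f, hf, hf'⟩ := hcmI i _ (Z.int i)
      apply hf
      apply hvan
      intro y hy
      obtain ⟨w, hw⟩ := hmem y hy
      exact hf' y ((hw i).1 hi)
    · push Not at hall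
      obtain ⟨j, -, k, -, hjk, hc⟩ := coll Z.cls Finset.univ (by simpa using hr)
        (fun x _ => hall x)
      obtain ⟨N, hN, hΨ⟩ := hcollI Z hjk hc
      exact hΨI j k hjk N hN (hvan _ fun y hy => hΨ y (hmem y hy))

end Pool.Agent.Y226.ZM
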