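import Pool.Agent.Y226.ZM.Comb
import Pool.Agent.Y226.ZM.Pure

/-!
# The mixed case: curves in `Y(1)^n × G_m^k`
-/

set_option autoImplicit false
set_option linter.unusedSectionVars false

open UpperHalfPlane H294ZP Polynomial

namespace Pool.Agent.Y226.ZM

open Pool.Agent.Y226 Pool.Agent.Y226.ZG

/-! ### monomial equations -/

section mp

variable {n : ℕ}

/-- the equation `κ x ^ v = τ` -/
noncomputable def mp (v : Fin n → ℤ) (κ τ : QA) : MvPolynomial (Fin n) QA :=
  MvPolynomial.C κ * mnum QA v - MvPolynomial.C τ * mnum QA (fun i => -v i)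

theorem mp_notin {𝔽 : Type} [Field 𝔽] [Algebra QA 𝔽] (𝒞 : GP QA 𝔽 n)
    {I : Ideal (MvPolynomial (Fin n) QA)}
    (hI : ∀ f : MvPolynomial (Fin n) QA, MvPolynomial.aeval 𝒞.x f = 0 ↔ f ∈ I) {v : Fin n → ℤ}
    (hv : v ≠ 0) {κ τ : QA} (hκ : κ ≠ 0) : mp v κ τ ∉ I := by
  intro hmem
  rw [← hI] at hmem
  have hxi : ∀ i, MvPolynomial.aeval 𝒞.x (MvPolynomial.X i : MvPolynomial (Fin n) QA) = 𝒞.x i :=
    fun i => MvPolynomial.aeval_X _ _
  have h1 := mnum_map ((MvPolynomial.aeval 𝒞.x :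
    MvPolynomial (Fin n) QA →ₐ[QA] 𝔽).toRingHom) hxi (v := v) (fun i _ => 𝒞.x_ne i)
  have h2 : MvPolynomial.aeval 𝒞.x (mnum QA v) =
      (∏ i, 𝒞.x i ^ v i) * MvPolynomial.aeval 𝒞.x (mnum QA (fun i => -v i)) := h1
  have h3 : MvPolynomial.aeval 𝒞.x (mnum QA (fun i => -v i)) ≠ 0 := by
    unfold mnum
    rw [map_prod]
    refine Finset.prod_ne_zero_iff.2 fun i _ => ?_
    rw [map_pow, hxi]
    exact pow_ne_zero _ (𝒞.x_ne i)
  unfold mp at hmem
  rw [map_sub, map_mul, map_mul, h2, MvPolynomial.aeval_C, MvPolynomial.aeval_C, ← mul_assoc,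
    ← sub_mul] at hmem
  rcases mul_eq_zero.1 hmem with h4 | h4
  · refine 𝒞.mon_ne hv (τ / κ) ?_
    have hκ' : algebraMap QA 𝔽 κ ≠ 0 := (_root_.map_ne_zero _).2 hκ
    rw [map_div₀, eq_div_iff hκ', mul_comm]
    exact sub_eq_zero.1 h4
  · exact h3 h4

theorem mp_eval {v : Fin n → ℤ} {κ τ : QA} {y : Fin n → ℂ} (hy : ∀ i, v i ≠ 0 → y i ≠ 0)
    (h : rA κ * ∏ i, y i ^ v i = rA τ) : MvPolynomial.eval₂ rA y (mp v κ τ) = 0 := by
  have h1 := mnum_map (MvPolynomial.eval₂Hom rA y) (y := y) (fun i => by simp) (v := v) hy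
  have h2 : MvPolynomial.eval₂ rA y (mnum QA v) =
      (∏ i, y i ^ v i) * MvPolynomial.eval₂ rA y (mnum QA (fun i => -v i)) := h1
  unfold mp
  rw [MvPolynomial.eval₂_sub, MvPolynomial.eval₂_mul, MvPolynomial.eval₂_mul,
    MvPolynomial.eval₂_C, MvPolynomial.eval₂_C, h2, ← h]
  ring

end mp

/-- a root of unity is algebraic -/
theorem root_QA {z : ℂ} {o : ℕ} (ho : 0 < o) (h : z ^ o = 1) : ∃ s : QA, rA s = z := by
  refine ⟨⟨z, mem_QA.2 ?_⟩, rfl⟩
  refine ⟨X ^ o - 1, ?_, ?_⟩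
  · exact X_pow_sub_C_ne_zero ho 1
  · rw [map_sub, map_pow, aeval_X, map_one, h, sub_self]

/-- products of roots of unity -/
theorem prod_root {k : ℕ} {η : Fin k → ℂ} (hη : ∀ l, ∃ o : ℕ, 0 < o ∧ η l ^ o = 1)
    (a : Fin k → ℤ) : ∃ o : ℕ, 0 < o ∧ (∏ l, η l ^ a l) ^ o = 1 := by
  choose o ho ho' using hη
  refine ⟨∏ l, o l, Finset.prod_pos fun l _ => ho l, ?_⟩
  rw [← Finset.prod_pow]
  refine Finset.prod_eq_one fun l _ => ?_
  obtain ⟨m, hm⟩ := Finset.dvd_prod_of_mem o (Finset.mem_univ l)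
  rw [hm, ← zpow_natCast, ← zpow_mul, mul_comm, zpow_mul, zpow_natCast, pow_mul, ho', one_pow,
    one_zpow]

/-- the image of a point -/
noncomputable def Th {n k : ℕ} (lam mu : Fin n → ℚ) (nu : Fin k → ℚ) (y : Fin (n + k) → ℂ) :
    Fin (n + k) → ℂ :=
  Fin.append (fun j => (lam j : ℂ) * y (Fin.castAdd k j) + mu j)
    (fun l => (nu l : ℂ) * y (Fin.natAdd n l))

/-- the main theorem -/
theorem main_mix {n k K : ℕ} (I : Ideal (MvPolynomial (Fin (n + k)) QA)) (hIp : I.IsPrime)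
    (hconst : ∀ (i : Fin (n + k)) (c : QA), MvPolynomial.X i - MvPolynomial.C c ∉ I)
    (hgen : ∀ i j, i ≠ j → ∃ (a b : ℕ) (g : QA[X][X]), Cor4 a b g ∧
      E2 MvPolynomial.C (MvPolynomial.X i) (MvPolynomial.X j) g ∈ I) (W : ℕ) (Γ : Finset ℂ)
    (hΓ : ∀ γ ∈ Γ, IsAlgebraic ℚ γ) (hK3 : 3 ≤ K) (hK : k * (k - 1) ≤ K)
    (c : Fin K → Fin k → ℤ) (hc : Indep c) : ∃ D : ℕ, ∀ (lam mu : Fin n → ℚ) (nu : Fin k → ℚ),
      (∀ l, nu l ≠ 0) → (∃ (p e f : Fin K → ℕ) (w : Fin K → Fin n → ℕ), Function.Injective p ∧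
        ∀ i, (p i).Prime ∧ D < p i ∧ 0 < e i ∧ 0 < f i ∧
        (∀ j, 0 < w i j ∧ w i j ≤ W ∧ padicValRat (p i) (lam j) = -((w i j : ℤ) * e i) ∧
          padicValRat (p i) (lam j) < padicValRat (p i) (mu j)) ∧
        ∀ l, padicValRat (p i) (nu l) = (f i : ℤ) * c i l) →
      {x : Fin (n + k) → ℂ | (∃ y ∈ VC I, x = Th lam mu nu y) ∧ (∀ l, x (Fin.natAdd n l) ≠ 0) ∧
        ∃ (r : ℕ) (Z : SV (Γ : Set ℂ) n r) (M : Submodule ℤ (Fin k → ℤ)) (η : Fin k → ℂ),
          (∀ l, ∃ o : ℕ, 0 < o ∧ η l ^ o = 1) ∧ r + 2 ≤ n + Module.finrank ℤ M ∧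
          (fun j => x (Fin.castAdd k j)) ∈ Z.locus ∧
          ∀ a ∈ M, ∏ l, x (Fin.natAdd n l) ^ a l = ∏ l, η l ^ a l}.Finite ∧
      ∀ (r : ℕ) (Z : SV (Γ : Set ℂ) n r) (M : Submodule ℤ (Fin k → ℤ)) (η : Fin k → ℂ),
        (∀ l, ∃ o : ℕ, 0 < o ∧ η l ^ o = 1) → r + 1 ≤ n + Module.finrank ℤ M →
        ∃ y ∈ VC I, (∀ l, Th lam mu nu y (Fin.natAdd n l) ≠ 0) ∧
          ¬ ((fun j => Th lam mu nu y (Fin.castAdd k j)) ∈ Z.locus ∧
          ∀ a ∈ M, ∏ l, Th lam mu nu y (Fin.natAdd n l) ^ a l = ∏ l, η l ^ a l) := by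
  classical
  haveI := hIp
  obtain ⟨𝔽, _, _, x₀, hx1, hx2⟩ := ff_of_prime I
  obtain ⟨𝒞, h𝒞⟩ := exists_GP x₀ hx1 (fun i => by
      intro halg
      obtain ⟨r, hr, hr0⟩ := halg
      obtain ⟨c, hc⟩ := root_const (algebraMap QA 𝔽) hr hr0
      apply hconst i c
      rw [← hx2, map_sub, MvPolynomial.aeval_X, MvPolynomial.aeval_C, hc, sub_self])
    (fun i j hij => by
      obtain ⟨a, b, g, hg, hgI⟩ := hgen i j hij
      refine ⟨a, b, g, hg, ?_⟩
      rw [← hx2, aeval_E2, MvPolynomial.aeval_X, MvPolynomial.aeval_X] at hgI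
      exact hgI)
  subst h𝒞
  -- the exponent vectors
  have hbS : ∀ S : Finset (Fin K), ∃ b : Fin k → ℤ,
      (∃ a : Fin k → ℤ, a ≠ 0 ∧ ∀ i ∈ S, ∑ l, a l * c i l = 0) →
      b ≠ 0 ∧ ∀ i ∈ S, ∑ l, b l * c i l = 0 := by
    intro S
    by_cases h : ∃ a : Fin k → ℤ, a ≠ 0 ∧ ∀ i ∈ S, ∑ l, a l * c i l = 0
    · exact ⟨h.choose, fun _ => h.choose_spec⟩
    · exact ⟨0, fun h' => absurd h' h⟩
  choose bS hbS' using hbS
  set W' := W + ∑ S, ∑ l, (bS S l).natAbs with hW'
  have hbSW : ∀ S, Bv W' (bS S) := by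
    intro S l
    have h1 : (bS S l).natAbs ≤ ∑ l, (bS S l).natAbs :=
      Finset.single_le_sum (f := fun l => (bS S l).natAbs) (fun _ _ => Nat.zero_le _)
        (Finset.mem_univ l)
    have h2 : ∑ l, (bS S l).natAbs ≤ ∑ S, ∑ l, (bS S l).natAbs :=
      Finset.single_le_sum (f := fun S => ∑ l, (bS S l).natAbs) (fun _ _ => Nat.zero_le _)
        (Finset.mem_univ S)
    rw [Int.abs_eq_natAbs]
    have h3 : (bS S l).natAbs ≤ W' := by omega
    exact_mod_cast h3
  obtain ⟨D₁, hD₁⟩ := exists_pkg 𝒞 hx2 W' Γ hΓ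
  -- the projection to the modular coordinates
  let ren : MvPolynomial (Fin n) QA →+* MvPolynomial (Fin (n + k)) QA :=
    (MvPolynomial.rename (Fin.castAdd k) : MvPolynomial (Fin n) QA →ₐ[QA] _).toRingHom
  have hrenX : ∀ i, ren (MvPolynomial.X i) = MvPolynomial.X (Fin.castAdd k i) :=
    fun i => MvPolynomial.rename_X _ _
  have hrenC : ∀ c, ren (MvPolynomial.C c) = MvPolynomial.C c := fun c => MvPolynomial.rename_C _ _
  have hcinj : ∀ i j : Fin n, i ≠ j → Fin.castAdd k i ≠ Fin.castAdd k j := by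
    intro i j hij h
    apply hij
    have := congrArg Fin.val h
    simp at this
    exact Fin.ext this
  obtain ⟨D₂, hD₂⟩ := main_QA3 (I.comap ren) (Ideal.comap_isPrime ren I) (by
      intro i c hmem
      rw [Ideal.mem_comap, map_sub, hrenX, hrenC] at hmem
      exact hconst _ c hmem) (by
      intro i j hij
      obtain ⟨a, b, g, hg, hgI⟩ := hgen _ _ (hcinj i j hij)
      refine ⟨a, b, g, hg, ?_⟩
      rw [Ideal.mem_comap, map_E2, hrenX, hrenX]
      have e : ren.comp (MvPolynomial.C : QA →+* MvPolynomial (Fin n) QA) = MvPolynomial.C :=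
        RingHom.ext hrenC
      rw [e]
      exact hgI) W Γ hΓ
  -- zeros of functions
  have hcoord : ∀ f, f ∉ I → ∀ i, ∃ q : QA[X], q ≠ 0 ∧ ∀ y ∈ VC I,
      MvPolynomial.eval₂ rA y f = 0 → ev q (y i) = 0 := by
    intro f hf i
    obtain ⟨q, hq, hq'⟩ := coord_poly 𝒞 (fun h => hf ((hx2 f).1 h)) i
    refine ⟨q, hq, fun y hy hfy => ?_⟩
    have := hq' ℂ rA y (fun g hg => hy g ((hx2 g).1 hg)) hfy
    unfold ev
    rwa [eval_map]
  have hzfin : ∀ f, f ∉ I → {y | y ∈ VC I ∧ MvPolynomial.eval₂ rA y f = 0}.Finite := by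
    intro f hf
    choose q hq hq' using hcoord f hf
    refine Set.Finite.subset (Set.Finite.pi' fun i => ((q i).map rA).rootSet_finite ℂ) ?_
    rintro y ⟨hy, hfy⟩ i
    rw [mem_rootSet]
    refine ⟨(Polynomial.map_ne_zero_iff rA.injective).2 (hq i), ?_⟩
    rw [coe_aeval_eq_eval]
    exact hq' i y hy hfy
  have hzalg : ∀ f, f ∉ I → ∀ y ∈ VC I, MvPolynomial.eval₂ rA y f = 0 →
      ∃ s : Fin (n + k) → QA, (fun i => rA (s i)) = y ∧ OnV I s := by
    intro f hf y hy hfy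
    have h1 : ∀ i, ∃ s : QA, rA s = y i := by
      intro i
      obtain ⟨q, hq, hq'⟩ := hcoord f hf i
      exact root_algebraic hq (hq' y hy hfy)
    choose s hs using h1
    have hsy : (fun i => rA (s i)) = y := funext hs
    refine ⟨s, hsy, fun g hg => ?_⟩
    have h2 := hy g hg
    rw [← hsy, eval₂_rA] at h2
    exact (map_eq_zero rA).1 h2
  refine ⟨D₁ + D₂, ?_⟩
  rintro lam mu nu hnu ⟨p, e, f, w, hpinj, hall⟩
  have hi₀ : 0 < K := by omega
  set i₀ : Fin K := ⟨0, hi₀⟩ with hi₀'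
  -- basic facts
  have hlam0 : ∀ i, lam i ≠ 0 := by
    intro j h0
    obtain ⟨hp, -, he, -, hw, -⟩ := hall i₀
    obtain ⟨h1, -, h2, -⟩ := hw j
    rw [h0, padicValRat.zero] at h2
    have h3 : (0 : ℤ) < (w i₀ j : ℤ) * e i₀ := by positivity
    omega
  have hlamQ : ∀ i, (lam i : QA) ≠ 0 := fun i => by exact_mod_cast hlam0 i
  have hlamC : ∀ i, (lam i : ℂ) ≠ 0 := fun i => by exact_mod_cast hlam0 i
  have hnuQ : ∀ l, (nu l : QA) ≠ 0 := fun l => by exact_mod_cast hnu l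
  have hnuC : ∀ l, (nu l : ℂ) ≠ 0 := fun l => by exact_mod_cast hnu l
  have hThl : ∀ y j, Th lam mu nu y (Fin.castAdd k j) = lam j * y (Fin.castAdd k j) + mu j :=
    fun y j => Fin.append_left _ _ _
  have hThr : ∀ y l, Th lam mu nu y (Fin.natAdd n l) = nu l * y (Fin.natAdd n l) :=
    fun y l => Fin.append_right _ _ _
  -- the packages
  have hpkg : ∀ i, Nonempty (Pkg I (Γ : Set ℂ) W' (p i)
      (Fin.append lam (fun _ : Fin k => ((p i : ℚ) ^ e i)⁻¹)) (Fin.append mu (fun _ => 0))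
      (Fin.append (fun _ => 1) nu)) := by
    intro i
    obtain ⟨hp, hDp, he, hf, hw, hnuv⟩ := hall i
    haveI : Fact (p i).Prime := ⟨hp⟩
    refine hD₁ (p i) (by omega) _ _ _ (Fin.append (w i) (fun _ => 1)) (e i) he ?_ ?_ ?_ ?_
    · intro j
      have hW1 : 0 < n + k → 1 ≤ W' := by
        intro _
        by_cases hn : 0 < n
        · have := (hw ⟨0, hn⟩)
          omega
        · have hk : 0 < k := by omega
          -- an exponent vector is not zero
          have hS : ∃ a : Fin k → ℤ, a ≠ 0 ∧ ∀ i ∈ (∅ : Finset (Fin K)), ∑ l, a l * c i l = 0 :=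
            ⟨fun _ => 1, fun h => by
              have := congrFun h ⟨0, hk⟩
              simp at this, fun i hi => absurd hi (Finset.notMem_empty i)⟩
          have h1 := (hbS' ∅ hS).1
          by_contra hcon
          have h2 : W' = 0 := by omega
          apply h1
          funext l
          have h3 := hbSW ∅ l
          rw [h2] at h3
          simpa using h3
      refine Fin.addCases (motive := fun j => 0 < (Fin.append (w i) (fun _ => 1) : Fin (n + k) → ℕ) j ∧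
        (Fin.append (w i) (fun _ => 1) : Fin (n + k) → ℕ) j ≤ W') ?_ ?_ j
      · intro j
        rw [Fin.append_left]
        exact ⟨(hw j).1, (hw j).2.1.trans (Nat.le_add_right _ _)⟩
      · intro l
        rw [Fin.append_right]
        exact ⟨one_pos, hW1 (by have := l.2; omega)⟩
    · intro j
      refine Fin.addCases (motive := fun j => padicValRat (p i)
        ((Fin.append lam (fun _ : Fin k => ((p i : ℚ) ^ e i)⁻¹) : Fin (n + k) → ℚ) j) =
        -(((Fin.append (w i) (fun _ => 1) : Fin (n + k) → ℕ) j : ℤ) * e i)) ?_ ?_ j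
      · intro j
        rw [Fin.append_left, Fin.append_left]
        exact (hw j).2.2.1
      · intro l
        rw [Fin.append_right, Fin.append_right, padicValRat.inv, padicValRat.pow,
          padicValRat.self hp.one_lt]
        push_cast
        ring
    · intro j
      refine Fin.addCases (motive := fun j => padicValRat (p i)
        ((Fin.append lam (fun _ : Fin k => ((p i : ℚ) ^ e i)⁻¹) : Fin (n + k) → ℚ) j) <
        padicValRat (p i) ((Fin.append mu (fun _ => 0) : Fin (n + k) → ℚ) j)) ?_ ?_ j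
      · intro j
        rw [Fin.append_left, Fin.append_left]
        exact (hw j).2.2.2
      · intro l
        rw [Fin.append_right, Fin.append_right, padicValRat.inv, padicValRat.pow,
          padicValRat.self hp.one_lt, padicValRat.zero]
        omega
    · intro j
      refine Fin.addCases (motive := fun j =>
        (Fin.append (fun _ => 1) nu : Fin (n + k) → ℚ) j ≠ 0) ?_ ?_ j
      · intro j
        rw [Fin.append_left]
        exact one_ne_zero
      · intro l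
        rw [Fin.append_right]
        exact hnu l
  have pk := fun i => (hpkg i).some
  obtain ⟨G, hG⟩ := comb (lamu := fun i _ => ((p i : ℚ) ^ e i)⁻¹) hK3 hK hc hbSW hbS'
    (fun i => (hall i).1) hpinj (fun i => (hall i).2.2.2.1) (fun i l => (hall i).2.2.2.2.2 l) pk
  -- the modular polynomials
  set lam' : Fin (n + k) → ℚ := Fin.append lam (fun _ => 1) with hlam'
  set mu' : Fin (n + k) → ℚ := Fin.append mu (fun _ => 0) with hmu'
  have hlam'l : ∀ j, lam' (Fin.castAdd k j) = lam j := fun j => Fin.append_left _ _ _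
  have hmu'l : ∀ j, mu' (Fin.castAdd k j) = mu j := fun j => Fin.append_left _ _ _
  have hΨI : ∀ j l : Fin n, j ≠ l → ∀ N, 0 < N →
      PsiM lam' mu' (Fin.castAdd k j) (Fin.castAdd k l) N ∉ I := by
    intro j l hjl N hN hmem
    rw [← hx2] at hmem
    refine psi_pole 𝒞 iA (hcinj j l hjl) hN (a := (lam' (Fin.castAdd k j) : QA))
      (b := (mu' (Fin.castAdd k j) : QA)) (a' := (lam' (Fin.castAdd k l) : QA))
      (b' := (mu' (Fin.castAdd k l) : QA)) (by rw [hlam'l]; exact hlamQ l) ?_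
    rw [← hmem]
    show _ = ((MvPolynomial.aeval 𝒞.x : MvPolynomial (Fin (n + k)) QA →ₐ[QA] 𝔽).toRingHom)
      (PsiM lam' mu' (Fin.castAdd k j) (Fin.castAdd k l) N)
    unfold PsiM
    rw [map_PsiE]
    have e1 : (((MvPolynomial.aeval 𝒞.x : MvPolynomial (Fin (n + k)) QA →ₐ[QA] 𝔽).toRingHom).comp
        ((MvPolynomial.C : QA →+* MvPolynomial (Fin (n + k)) QA).comp iA)) =
        (algebraMap QA 𝔽).comp iA := by
      refine RingHom.ext fun z => ?_
      show MvPolynomial.aeval 𝒞.x (MvPolynomial.C (iA z)) = _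
      rw [MvPolynomial.aeval_C]
      rfl
    have e2 : ∀ c d : QA, ∀ i, ((MvPolynomial.aeval 𝒞.x :
        MvPolynomial (Fin (n + k)) QA →ₐ[QA] 𝔽).toRingHom)
        (MvPolynomial.C c * MvPolynomial.X i + MvPolynomial.C d) =
        algebraMap QA 𝔽 c * 𝒞.x i + algebraMap QA 𝔽 d := by
      intro c d i
      show MvPolynomial.aeval 𝒞.x (MvPolynomial.C c * MvPolynomial.X i + MvPolynomial.C d) = _
      rw [map_add, map_mul, MvPolynomial.aeval_C, MvPolynomial.aeval_C, MvPolynomial.aeval_X]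
    rw [e1, e2, e2]
  have hΨev : ∀ (j l : Fin n) (N : ℕ) (y : Fin (n + k) → ℂ),
      MvPolynomial.eval₂ rA y (PsiM lam' mu' (Fin.castAdd k j) (Fin.castAdd k l) N) =
      PsiE ιZ (mP N) (mD N) (lam j * y (Fin.castAdd k j) + mu j)
        (lam l * y (Fin.castAdd k l) + mu l) := by
    intro j l N y
    rw [PsiM_eval₂, hlam'l, hmu'l, hlam'l, hmu'l]
  -- relations from special subvarieties
  have hcmI : ∀ (i : Fin n) (c₀ : ℂ), IsIntegral (Algebra.adjoin ℤ (Γ : Set ℂ)) c₀ →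
      ∃ f, f ∉ I ∧ ∀ y : Fin (n + k) → ℂ,
      (lam i : ℂ) * y (Fin.castAdd k i) + mu i = c₀ → MvPolynomial.eval₂ rA y f = 0 := by
    intro i c₀ hint
    obtain ⟨c, hcx⟩ := int_alg hΓ c₀ hint
    refine ⟨_, hconst (Fin.castAdd k i) ((c - mu i) / lam i), fun y hy => ?_⟩
    rw [MvPolynomial.eval₂_sub, MvPolynomial.eval₂_X, MvPolynomial.eval₂_C, map_div₀, map_sub, hcx,
      map_ratCast, map_ratCast, ← hy]
    have := hlamC i
    field_simp
    ring
  have hcollI : ∀ {r : ℕ} (Z : SV (Γ : Set ℂ) n r) {j l : Fin n}, j ≠ l →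
      (∃ c, Z.cls j = some c ∧ Z.cls l = some c) → ∃ N, 0 < N ∧
      ∀ y : Fin (n + k) → ℂ, (fun j => Th lam mu nu y (Fin.castAdd k j)) ∈ Z.locus →
        MvPolynomial.eval₂ rA y (PsiM lam' mu' (Fin.castAdd k j) (Fin.castAdd k l) N) = 0 := by
    rintro r Z j l hjl ⟨c, hcj, hcl⟩
    obtain ⟨a', b', c', d', hdet, hrel⟩ := Z.rel_unif hcj hcl
    obtain ⟨N, hN⟩ : ∃ N : ℕ, (N : ℤ) = a' * d' - b' * c' :=
      ⟨(a' * d' - b' * c').toNat, by omega⟩
    have hN0 : 0 < N := by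
      have : (0 : ℤ) < N := by rw [hN]; exact hdet
      exact_mod_cast this
    refine ⟨N, hN0, fun y hy => ?_⟩
    obtain ⟨w, w', hww, hw, hw'⟩ := hrel _ hy
    obtain ⟨-, -, -, -, -, -, -, -, -, -, h5⟩ := modular_spec N hN0
    have hΨ := h5 w w' a' b' c' d' hN.symm hww
    rw [← hw, ← hw', hThl, hThl] at hΨ
    rw [hΨev]
    exact hΨ
  have hZI : ∀ {r : ℕ} (Z : SV (Γ : Set ℂ) n r), r < n → ∃ f, f ∉ I ∧ ∀ y : Fin (n + k) → ℂ,
      (fun j => Th lam mu nu y (Fin.castAdd k j)) ∈ Z.locus → MvPolynomial.eval₂ rA y f = 0 := by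
    intro r Z hr
    by_cases hno : ∃ i, Z.cls i = none
    · obtain ⟨i, hi⟩ := hno
      obtain ⟨f, hf, hf'⟩ := hcmI i _ (Z.int i)
      refine ⟨f, hf, fun y hy => hf' y ?_⟩
      obtain ⟨w, hw⟩ := hy
      rw [← hThl]
      exact (hw i).1 hi
    · push Not at hno
      obtain ⟨j, -, l, -, hjl, hc⟩ := coll Z.cls Finset.univ (by simpa using hr)
        (fun x _ => hno x)
      obtain ⟨N, hN, hΨ⟩ := hcollI Z hjl hc
      exact ⟨_, hΨI j l hjl N hN, hΨ⟩
  -- relations from torsion cosets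
  have hκ0 : ∀ a : Fin k → ℤ, (∏ l, (nu l : QA) ^ a l) ≠ 0 := fun a =>
    Finset.prod_ne_zero_iff.2 fun l _ => zpow_ne_zero _ (hnuQ l)
  have htorI : ∀ (a : Fin k → ℤ), a ≠ 0 → ∀ (τ : ℂ) (o : ℕ), 0 < o → τ ^ o = 1 → ∃ f, f ∉ I ∧
      ∀ y : Fin (n + k) → ℂ, (∀ l, Th lam mu nu y (Fin.natAdd n l) ≠ 0) →
        ∏ l, Th lam mu nu y (Fin.natAdd n l) ^ a l = τ → MvPolynomial.eval₂ rA y f = 0 := by
    intro a ha τ o ho hτ
    obtain ⟨t, ht⟩ := root_QA ho hτ
    refine ⟨mp (ext n a) (∏ l, (nu l : QA) ^ a l) t, mp_notin 𝒞 hx2 (ext_ne ha) (hκ0 a),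
      fun y hy0 hy => mp_eval ?_ ?_⟩
    · refine ext_supp (Q := fun i => y i ≠ 0) fun l _ h0 => hy0 l ?_
      rw [hThr, h0, mul_zero]
    · rw [prod_ext, ht, ← hy, map_prod, ← Finset.prod_mul_distrib]
      refine Finset.prod_congr rfl fun l _ => ?_
      rw [hThr, map_zpow₀, map_ratCast, mul_zpow]
  refine ⟨?_, ?_⟩
  · -- finiteness
    -- the pure part
    have hpure := (hD₂ lam mu ⟨p i₀, e i₀, w i₀, (hall i₀).1, by have := (hall i₀).2.1; omega,
      (hall i₀).2.2.1, (hall i₀).2.2.2.2.1⟩).1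
    set F' := {x : Fin n → ℂ | (∃ y ∈ VC (I.comap ren), ∀ i, x i = lam i * y i + mu i) ∧
        ∃ (r : ℕ) (Z : SV (Γ : Set ℂ) n r), r + 2 ≤ n ∧ x ∈ Z.locus} with hF'
    have hVC' : ∀ y ∈ VC I, (fun j => y (Fin.castAdd k j)) ∈ VC (I.comap ren) := by
      intro y hy f hf
      have h1 := hy _ (Ideal.mem_comap.1 hf)
      have h2 : MvPolynomial.eval₂ rA y (MvPolynomial.rename (Fin.castAdd k) f) = 0 := h1
      rw [MvPolynomial.eval₂_rename] at h2
      exact h2
    have hB1 : (⋃ x' ∈ F', {y | y ∈ VC I ∧ (∃ s : Fin (n + k) → QA, (fun i => rA (s i)) = y) ∧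
        2 ≤ n ∧ ∀ j : Fin n, lam j * y (Fin.castAdd k j) + mu j = x' j}).Finite := by
      refine Set.Finite.biUnion hpure fun x' _ => ?_
      by_cases hn2 : 2 ≤ n
      · set j₀ : Fin n := ⟨0, by omega⟩ with hj₀
        by_cases halg : ∃ s₀ : QA, (lam j₀ : ℂ) * rA s₀ + mu j₀ = x' j₀
        · obtain ⟨s₀, hs₀⟩ := halg
          refine (hzfin _ (hconst (Fin.castAdd k j₀) s₀)).subset ?_
          rintro y ⟨hy, -, -, hyx⟩
          refine ⟨hy, ?_⟩
          rw [MvPolynomial.eval₂_sub, MvPolynomial.eval₂_X, MvPolynomial.eval₂_C]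
          have h1 := hyx j₀
          rw [← hs₀] at h1
          have h2 : (lam j₀ : ℂ) * (y (Fin.castAdd k j₀) - rA s₀) = 0 := by linear_combination h1
          exact (mul_eq_zero.1 h2).resolve_left (hlamC j₀)
        · refine Set.Finite.subset Set.finite_empty ?_
          rintro y ⟨-, ⟨s, hs⟩, -, hyx⟩
          exact halg ⟨s (Fin.castAdd k j₀), by rw [← hyx j₀, ← hs]⟩
      · refine Set.Finite.subset Set.finite_empty ?_
        rintro y ⟨-, -, h2, -⟩
        exact hn2 h2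
    -- the modular polynomials
    have hf2 : ∀ q : Fin n × Fin n × ℕ, ∃ f, f ∉ I ∧ (q.1 ≠ q.2.1 → 0 < q.2.2 →
        f = PsiM lam' mu' (Fin.castAdd k q.1) (Fin.castAdd k q.2.1) q.2.2) := by
      rintro ⟨j, l, N⟩
      by_cases h : j ≠ l ∧ 0 < N
      · exact ⟨_, hΨI j l h.1 N h.2, fun _ _ => rfl⟩
      · exact ⟨1, fun h1 => hIp.ne_top ((Ideal.eq_top_iff_one I).2 h1),
          fun h1 h2 => absurd ⟨h1, h2⟩ h⟩
    choose f₂ hf₂0 hf₂1 using hf2
    have hB2 : (⋃ q ∈ (Finset.univ ×ˢ Finset.univ ×ˢ Finset.range (G + 1) :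
        Finset (Fin n × Fin n × ℕ)),
          {y | y ∈ VC I ∧ MvPolynomial.eval₂ rA y (f₂ q) = 0}).Finite :=
      Set.Finite.biUnion (Finset.finite_toSet _) fun q _ => hzfin _ (hf₂0 q)
    -- the monomials
    have hf3 : ∀ q : (Fin k → ℤ) × ℕ, ∃ f, f ∉ I ∧ (q.1 ≠ 0 → 0 < q.2 →
        f = mp (ext n (fun l => (q.2 : ℤ) * q.1 l)) (∏ l, (nu l : QA) ^ ((q.2 : ℤ) * q.1 l)) 1) := by
      rintro ⟨b, o⟩
      by_cases h : b ≠ 0 ∧ 0 < o
      · refine ⟨_, mp_notin 𝒞 hx2 (ext_ne ?_) (hκ0 _), fun _ _ => rfl⟩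
        intro h0
        apply h.1
        funext l
        have h1 := congrFun h0 l
        simp only [Pi.zero_apply] at h1 ⊢
        rcases mul_eq_zero.1 h1 with h2 | h2
        · have := h.2
          omega
        · exact h2
      · exact ⟨1, fun h1 => hIp.ne_top ((Ideal.eq_top_iff_one I).2 h1),
          fun h1 h2 => absurd ⟨h1, h2⟩ h⟩
    choose f₃ hf₃0 hf₃1 using hf3
    have hB3 : (⋃ q ∈ ((finite_Bv1 k W').toFinset ×ˢ Finset.range (G + 1) :
        Finset ((Fin k → ℤ) × ℕ)),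
          {y | y ∈ VC I ∧ MvPolynomial.eval₂ rA y (f₃ q) = 0}).Finite :=
      Set.Finite.biUnion (Finset.finite_toSet _) fun q _ => hzfin _ (hf₃0 q)
    refine (((hB1.union hB2).union hB3).image (Th lam mu nu)).subset ?_
    rintro x ⟨⟨y, hy, rfl⟩, hx0, r, Z, M, η, hη, hr, hZ, hM⟩
    refine ⟨y, ?_, rfl⟩
    by_cases ht : Module.finrank ℤ M = 0
    · left; left
      rw [ht, add_zero] at hr
      rw [Set.mem_iUnion₂]
      refine ⟨fun j => Th lam mu nu y (Fin.castAdd k j), ⟨⟨fun j => y (Fin.castAdd k j), hVC' y hy,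
        fun j => hThl y j⟩, r, Z, hr, hZ⟩, hy, ?_, by omega, fun j => (hThl y j).symm⟩
      obtain ⟨f, hf, hf'⟩ := hZI Z (by omega)
      obtain ⟨s, hs, -⟩ := hzalg f hf y hy (hf' y hZ)
      exact ⟨s, hs⟩
    · -- the point is algebraic
      obtain ⟨a, haM, ha0⟩ : ∃ a ∈ M, a ≠ 0 := by
        by_contra hcon
        push Not at hcon
        have h1 : M = ⊥ := (Submodule.eq_bot_iff M).2 hcon
        rw [h1, finrank_bot] at ht
        exact ht rfl
      obtain ⟨o, ho, ho'⟩ := prod_root hη a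
      obtain ⟨f, hf, hf'⟩ := htorI a ha0 _ o ho ho'
      obtain ⟨s, hs, hsV⟩ := hzalg f hf y hy (hf' y hx0 (hM a haM))
      have hys : ∀ i, y i = rA (s i) := fun i => by rw [← hs]
      have hXs : ∀ j, rA ((lam j : QA) * s (Fin.castAdd k j) + mu j) =
          Th lam mu nu y (Fin.castAdd k j) := by
        intro j
        rw [hThl, hys, map_add, map_mul, map_ratCast, map_ratCast]
      have hUs : ∀ b : Fin k → ℤ, rA (∏ l, ((nu l : QA) * s (Fin.natAdd n l)) ^ b l) =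
          ∏ l, Th lam mu nu y (Fin.natAdd n l) ^ b l := by
        intro b
        rw [map_prod]
        refine Finset.prod_congr rfl fun l _ => ?_
        rw [map_zpow₀, map_mul, map_ratCast, hThr, hys]
      have hAt : Atyp (Γ : Set ℂ) (fun j => rA ((lam j : QA) * s (Fin.castAdd k j) + mu j))
          (fun l => (nu l : QA) * s (Fin.natAdd n l)) Z.cls M := by
        refine ⟨?_, ?_, ?_⟩
        · intro j hj
          show IsIntegral _ (rA _)
          rw [hXs]
          obtain ⟨z, hz⟩ := hZ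
          rw [show Th lam mu nu y (Fin.castAdd k j) = Z.const j from (hz j).1 hj]
          exact Z.int j
        · intro j l cc hcj hcl
          obtain ⟨a', b', c', d', hdet, hrel⟩ := Z.rel_unif hcj hcl
          obtain ⟨w, w', hww, hw, hw'⟩ := hrel _ hZ
          exact ⟨w, w', a', b', c', d', hdet, hww, (hXs j).trans hw, (hXs l).trans hw'⟩
        · intro b hb
          obtain ⟨o, ho, ho'⟩ := prod_root hη b
          refine ⟨o, ho, rA.injective ?_⟩
          rw [map_pow, map_one, hUs, hM b hb, ho']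
      rcases hG s hsV r Z.cls M hr (by omega) hAt with ⟨j, l, hjl, N', h1, h2, h3⟩ |
        ⟨b, hbW, hb0, o, ho, hoG, h3⟩
      · left; right
        rw [Set.mem_iUnion₂]
        refine ⟨(j, l, N'), ?_, hy, ?_⟩
        · simp only [Finset.mem_product, Finset.mem_univ, Finset.mem_range, true_and]
          omega
        · rw [hf₂1 (j, l, N') hjl h1]
          show MvPolynomial.eval₂ rA y (PsiM lam' mu' (Fin.castAdd k j) (Fin.castAdd k l) N') = 0
          rw [hΨev, ← hThl, ← hThl, ← hXs, ← hXs]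
          exact h3
      · right
        rw [Set.mem_iUnion₂]
        refine ⟨(b, o), ?_, hy, ?_⟩
        · simp only [Finset.mem_product, Finset.mem_range, Set.Finite.mem_toFinset, Set.mem_setOf_eq]
          exact ⟨hbW, by omega⟩
        · rw [hf₃1 (b, o) hb0 ho]
          refine mp_eval ?_ ?_
          · refine ext_supp (Q := fun i => y i ≠ 0) fun l _ h0 => hx0 l ?_
            rw [hThr, h0, mul_zero]
          · rw [prod_ext, map_prod, ← Finset.prod_mul_distrib, map_one]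
            have h4 := congrArg rA h3
            rw [map_pow, map_one, hUs] at h4
            rw [← h4, ← Finset.prod_pow]
            refine Finset.prod_congr rfl fun l _ => ?_
            rw [hThr, map_zpow₀, map_ratCast, ← mul_zpow, mul_comm (o : ℤ), zpow_mul, zpow_natCast]
  · -- not contained in a proper special subvariety
    intro r Z M η hη hr
    by_contra hcon
    push Not at hcon
    have hvan : ∀ f, (∀ y ∈ VC I, (∀ l, Th lam mu nu y (Fin.natAdd n l) ≠ 0) →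
        MvPolynomial.eval₂ rA y f = 0) → f ∈ I := by
      intro f hf
      have h1 : f * ∏ l : Fin k, MvPolynomial.X (Fin.natAdd n l) ∈
          MvPolynomial.vanishingIdeal QA (MvPolynomial.zeroLocus ℂ I) := by
        intro y hy
        have hyV : y ∈ VC I := fun g hg => hy g hg
        have e : MvPolynomial.aeval y (f * ∏ l : Fin k, MvPolynomial.X (Fin.natAdd n l)) =
            MvPolynomial.eval₂ rA y f * ∏ l : Fin k, y (Fin.natAdd n l) := by
          rw [map_mul, map_prod]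
          simp only [MvPolynomial.aeval_X]
          rfl
        rw [e]
        by_cases hl : ∀ l, Th lam mu nu y (Fin.natAdd n l) ≠ 0
        · rw [hf y hyV hl, zero_mul]
        · push Not at hl
          obtain ⟨l, hl⟩ := hl
          rw [hThr] at hl
          rw [Finset.prod_eq_zero (Finset.mem_univ l)
            ((mul_eq_zero.1 hl).resolve_left (hnuC l)), mul_zero]
      rw [MvPolynomial.IsPrime.vanishingIdeal_zeroLocus] at h1
      rcases hIp.mem_or_mem h1 with h2 | h2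
      · exact h2
      · exfalso
        rw [hIp.prod_mem_iff] at h2
        obtain ⟨l, -, hl⟩ := h2
        exact hconst (Fin.natAdd n l) 0 (by rw [map_zero, sub_zero]; exact hl)
    by_cases hrn : r < n
    · obtain ⟨f, hf, hf'⟩ := hZI Z hrn
      exact hf (hvan f fun y hy hl => hf' y (hcon y hy hl).1)
    · obtain ⟨a, haM, ha0⟩ : ∃ a ∈ M, a ≠ 0 := by
        by_contra hcon'
        push Not at hcon'
        have h1 : M = ⊥ := (Submodule.eq_bot_iff M).2 hcon'
        rw [h1, finrank_bot] at hr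
        omega
      obtain ⟨o, ho, ho'⟩ := prod_root hη a
      obtain ⟨f, hf, hf'⟩ := htorI a ha0 _ o ho ho'
      exact hf (hvan f fun y hy hl => hf' y hl ((hcon y hy hl).2 a haM))

end Pool.Agent.Y226.ZM
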