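import Pool.Agent.Y226.ZM.L3

/-!
# The local theorem for special subvarieties with integral constants
-/

set_option autoImplicit false
set_option linter.unusedSectionVars false

open UpperHalfPlane H294ZP Polynomial

namespace Pool.Agent.Y226.ZG

open Pool.Agent.Y226

namespace Loc

variable {C : Type} [NormedField C] [IsUltrametricDist C] [CompleteSpace C] [CharZero C]
  [IsAlgClosed C] {p : ℕ} [hpf : Fact p.Prime] {k : Type}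
  [Field k] {n N W M d D : ℕ} (𝓛 : Loc C p k n N W M d D)

/-- The local theorem. -/
theorem local_core' [CharP k p] [IsAlgClosed k] : ∃ G : ℕ, ∀ (X : Fin n → QA) (x : Fin n → C),
    𝓛.Pt x → (∀ i, 𝓛.φ (X i) = 𝓛.Λ i * x i + 𝓛.tm i) → ∀ (r : ℕ) (cls : Fin n → Option (Fin r)),
    r + 2 ≤ n → (∀ i, cls i = none → ‖𝓛.φ (X i)‖ ≤ 1) →
    (∀ j l c, j ≠ l → cls j = some c → cls l = some c → ∃ (w w' : ℍ) (a b c' d' : ℤ),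
      0 < a * d' - b * c' ∧ (w' : ℂ) * (c' * w + d') = a * w + b ∧ rA (X j) = jj w ∧
      rA (X l) = jj w') → ∃ j l : Fin n, j ≠ l ∧ ∃ N' : ℕ, 0 < N' ∧ N' ≤ G ∧
      PsiE ιZ (mP N') (mD N') (rA (X j)) (rA (X l)) = 0 := by
  classical
  choose κ hκ using 𝓛.exists_κ
  -- the tame sets
  let J := (Fin n × Fin n × Fin (W + 1) × Fin (W + 1)) × (Fin n × Fin n × Fin (W + 1) × Fin (W + 1))
  have hT : ∀ q : J, ∃ T : Set (Fin n → k), T.Finite ∧ (q.1.1 ≠ q.1.2.1 → q.2.1 ≠ q.2.2.1 →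
      ¬ ((q.2.1 = q.1.1 ∧ q.2.2.1 = q.1.2.1) ∨ (q.2.1 = q.1.2.1 ∧ q.2.2.1 = q.1.1)) →
      0 < (q.1.2.2.1 : ℕ) → 0 < (q.1.2.2.2 : ℕ) → 0 < (q.2.2.2.2 : ℕ) →
      𝓛.Λ q.1.2.1 ^ (q.1.2.2.2 : ℕ) * (𝓛.Λ q.1.1 ^ (q.1.2.2.1 : ℕ))⁻¹ ∈ GG C p 0 le_rfl one_pos →
      𝓛.Λ q.2.2.1 ^ (q.2.2.2.2 : ℕ) * (𝓛.Λ q.2.1 ^ (q.2.2.2.1 : ℕ))⁻¹ ∈ GG C p 0 le_rfl one_pos →
      ∀ (x : Fin n → C), 𝓛.Pt x → ∀ (xO : Fin n → OO C)
      (Y : Fin n → Cˣ), (∀ i, (xO i : C) = x i) → (∀ i, (Y i : C) = xO i) →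
      (∀ i, ‖(xO i : C)‖ = 1) →
      ∀ (ζ ζ' : Cˣ) (f f' : ℕ), 0 < f → (ζ : C) ^ p ^ f = ζ → 0 < f' → (ζ' : C) ^ p ^ f' = ζ' →
      ‖((𝓛.Λ q.1.2.1 ^ (q.1.2.2.2 : ℕ) * (𝓛.Λ q.1.1 ^ (q.1.2.2.1 : ℕ))⁻¹ *
        (Y q.1.2.1 ^ (q.1.2.2.2 : ℕ) * (Y q.1.1 ^ (q.1.2.2.1 : ℕ))⁻¹) * ζ : Cˣ) : C) -
        (1 + p * ((q.1.2.2.2 : ℕ) * (κ q.1.2.1 * ((Y q.1.2.1 : Cˣ) : C)⁻¹) -
          (q.1.2.2.1 : ℕ) * (κ q.1.1 * ((Y q.1.1 : Cˣ) : C)⁻¹)))‖ ≤ ‖(p : C)‖ ^ 2 →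
      ‖((𝓛.Λ q.2.2.1 ^ (q.2.2.2.2 : ℕ) * (𝓛.Λ q.2.1 ^ (q.2.2.2.1 : ℕ))⁻¹ *
        (Y q.2.2.1 ^ (q.2.2.2.2 : ℕ) * (Y q.2.1 ^ (q.2.2.2.1 : ℕ))⁻¹) * ζ' : Cˣ) : C) -
        (1 + p * ((q.2.2.2.2 : ℕ) * (κ q.2.2.1 * ((Y q.2.2.1 : Cˣ) : C)⁻¹) -
          (q.2.2.2.1 : ℕ) * (κ q.2.1 * ((Y q.2.1 : Cˣ) : C)⁻¹)))‖ ≤ ‖(p : C)‖ ^ 2 →
      (fun i => 𝓛.red (xO i)) ∈ T) := by
    rintro ⟨⟨j, l, A, B⟩, ⟨j', l', A', B'⟩⟩
    by_cases h : j ≠ l ∧ j' ≠ l' ∧ ¬ ((j' = j ∧ l' = l) ∨ (j' = l ∧ l' = j)) ∧ 0 < (A : ℕ) ∧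
        0 < (B : ℕ) ∧ 0 < (B' : ℕ) ∧
        𝓛.Λ l ^ (B : ℕ) * (𝓛.Λ j ^ (A : ℕ))⁻¹ ∈ GG C p 0 le_rfl one_pos ∧
        𝓛.Λ l' ^ (B' : ℕ) * (𝓛.Λ j' ^ (A' : ℕ))⁻¹ ∈ GG C p 0 le_rfl one_pos
    · obtain ⟨h1, h2, h3, h4, h5, h6, h7, h8⟩ := h
      obtain ⟨T, hT, hT'⟩ := 𝓛.tame_T κ h1 h2 h3 h4 h5 h6 (Nat.lt_succ_iff.1 A.2)
        (Nat.lt_succ_iff.1 B.2) (Nat.lt_succ_iff.1 A'.2) (Nat.lt_succ_iff.1 B'.2) h7 h8
      exact ⟨T, hT, fun _ _ _ _ _ _ _ _ => hT'⟩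
    · exact ⟨∅, Set.finite_empty, fun h1 h2 h3 h4 h5 h6 h7 h8 =>
        absurd ⟨h1, h2, h3, h4, h5, h6, h7, h8⟩ h⟩
  choose T hTfin hTmem using hT
  set S : Set k := (⋃ q : Fin n × Bool × Fin n, ((fun y : (PowerSeries 𝓛.R)ˣ =>
      𝓛.χ (PowerSeries.coeff 0 (y : PowerSeries 𝓛.R))) '' {y | y ∈ 𝓛.𝓡.ys q.1 q.2.1 q.2.2})) ∪
      ⋃ q : J × Fin n, (fun t : Fin n → k => t q.2) '' (T q.1) with hS
  have hSfin : S.Finite := by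
    refine Set.Finite.union (Set.finite_iUnion fun q => Set.Finite.image _ ?_)
      (Set.finite_iUnion fun q => (hTfin q.1).image _)
    exact Multiset.finite_toSet _
  obtain ⟨G₁, hG₁⟩ := 𝓛.order_bound hSfin
  refine ⟨W * W * (G₁ * p ^ 2) ^ 2, ?_⟩
  intro X x hx hX r cls hr hcm hZ
  -- the units
  have hYex : ∀ i, ∃ y : Cˣ, ‖x i‖ = 1 → (y : C) = x i := by
    intro i
    by_cases h : ‖x i‖ = 1
    · exact ⟨Units.mk0 (x i) (norm_pos_iff.1 (by rw [h]; exact one_pos)), fun _ => rfl⟩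
    · exact ⟨1, fun h' => absurd h' h⟩
  choose Y hY using hYex
  have hYn : ∀ i, ‖x i‖ = 1 → ‖((Y i : Cˣ) : C)‖ = 1 := fun i hi => by rw [hY i hi]; exact hi
  have hgood1 : ∀ i, ‖x i‖ = 1 → 1 < ‖𝓛.φ (X i)‖ := fun i hi => 𝓛.X_gt (hX i) hi
  have hnone : ∀ i, ‖x i‖ = 1 → cls i ≠ none := by
    intro i hi h
    exact absurd (hgood1 i hi) (not_lt.2 (hcm i h))
  -- information on pairs
  have hinfo : ∀ j l, j ≠ l → ‖x j‖ = 1 → ‖x l‖ = 1 → (∃ c, cls j = some c ∧ cls l = some c) →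
      ∃ (A B g' s : ℕ) (ζ' ε : Cˣ), PI 𝓛 κ Y X j l A B g' s ζ' ε := by
    intro j l hjl hj hl ⟨c, hcj, hcl⟩
    obtain ⟨w, w', a, b, c', d', hdet, hrel, hw, hw'⟩ := hZ _ _ _ hjl hcj hcl
    obtain ⟨A, B, g', s, ζ', ε, h1, h2, h3, h4, h5, h6, h7, h8, h9, h10, h11⟩ :=
      pair_info2 𝓛.φ 𝓛.hp0 𝓛.hp1 𝓛.hpu 𝓛.he (𝓛.hw j).1 (𝓛.hw l).1 (𝓛.hΛ j) (𝓛.hΛ l)
        (hκ j) (hκ l) (hYn j hj) (hYn l hl) (by rw [hX, hY j hj]) (by rw [hX, hY l hl])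
        hdet hrel hw hw'
    refine ⟨A, B, g', s, ζ', ε, h1, h2, ?_, ?_, h5, h6, h7, h8, h9, h10, h11⟩
    · have h12 : A ∣ B * 𝓛.w l := ⟨_, h4⟩
      exact (Nat.le_of_dvd (𝓛.hw l).1 (h3.dvd_of_dvd_mul_left h12)).trans (𝓛.hw l).2
    · have h12 : B ∣ A * 𝓛.w j := ⟨_, h4.symm⟩
      exact (Nat.le_of_dvd (𝓛.hw j).1 (h3.symm.dvd_of_dvd_mul_left h12)).trans (𝓛.hw j).2
  -- from the tame bound to the conclusion
  have hfin : ∀ j l, j ≠ l → ∀ (hj : ‖x j‖ = 1) (hl : ‖x l‖ = 1),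
      𝓛.red ⟨x j, hj.le⟩ ∈ S → 𝓛.red ⟨x l, hl.le⟩ ∈ S →
      ∀ (A B g' s : ℕ) (ζ' ε : Cˣ), PI 𝓛 κ Y X j l A B g' s ζ' ε → s ≤ 2 →
      ∃ j l : Fin n, j ≠ l ∧ ∃ N' : ℕ, 0 < N' ∧ N' ≤ W * W * (G₁ * p ^ 2) ^ 2 ∧
        PsiE ιZ (mP N') (mD N') (rA (X j)) (rA (X l)) = 0 := by
    intro j l hjl hj hl hSj hSl A B g' s ζ' ε h hs
    have h1 := hG₁ κ Y X j l A B g' s ζ' ε h ⟨x j, hj.le⟩ ⟨x l, hl.le⟩ (hY j hj).symm
      (hY l hl).symm (hYn j hj) (hYn l hl) hSj hSl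
    refine ⟨j, l, hjl, A * B * (g' * p ^ s) ^ 2, ?_, ?_, h.hrel⟩
    · have h2 := hpf.out.pos
      have h3 := h.hA
      have h4 := h.hB
      have h5 := h.hg
      positivity
    · exact Nat.mul_le_mul (Nat.mul_le_mul h.hAW h.hBW) (Nat.pow_le_pow_left
        (Nat.mul_le_mul h1 (Nat.pow_le_pow_right hpf.out.pos hs)) 2)
  -- the combinatorics
  by_cases hall : ∀ i, ‖x i‖ = 1
  · obtain ⟨j, -, l, -, hjl, hc⟩ := coll cls Finset.univ (by simp; omega)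
      (fun x _ => hnone x (hall x))
    obtain ⟨j', hj', l', hl', hjl', hc'⟩ := coll cls (Finset.univ.erase l)
      (by rw [Finset.card_erase_of_mem (Finset.mem_univ l)]; simp; omega)
      (fun x _ => hnone x (hall x))
    have h1 := Finset.ne_of_mem_erase hj'
    have h2 := Finset.ne_of_mem_erase hl'
    have hne : ¬ ((j' = j ∧ l' = l) ∨ (j' = l ∧ l' = j)) := by
      rintro (⟨-, h⟩ | ⟨h, -⟩)
      · exact h2 h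
      · exact h1 h
    obtain ⟨A, B, g₁, s₁, ζ₁, ε₁, hP₁⟩ := hinfo j l hjl (hall j) (hall l) hc
    obtain ⟨A', B', g₂, s₂, ζ₂, ε₂, hP₂⟩ := hinfo j' l' hjl' (hall j') (hall l') hc'
    obtain ⟨rfl, rfl⟩ := 𝓛.no_wild2 hx (hY j (hall j)) (hY l (hall l)) (hY j' (hall j'))
      (hY l' (hall l')) (hall j) (hall l) (hall j') (hall l') hjl hjl' hne hP₁ hP₂
    have hε₁ : ε₁ = 1 := Units.ext (by
      have := hP₁.hε.pow_eq_one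
      simpa using this)
    have hε₂ : ε₂ = 1 := Units.ext (by
      have := hP₂.hε.pow_eq_one
      simpa using this)
    obtain ⟨f₁, hf₁, hff₁⟩ := fixed_of_pow_eq_one (p := p) hP₁.hcop hP₁.hζ.pow_eq_one
    obtain ⟨f₂, hf₂, hff₂⟩ := fixed_of_pow_eq_one (p := p) hP₂.hcop hP₂.hζ.pow_eq_one
    have e₁ := hP₁.hexp
    have e₂ := hP₂.hexp
    rw [hε₁, mul_one] at e₁
    rw [hε₂, mul_one] at e₂
    have hTm := hTmem ((j, l, ⟨A, Nat.lt_succ_of_le hP₁.hAW⟩, ⟨B, Nat.lt_succ_of_le hP₁.hBW⟩),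
      (j', l', ⟨A', Nat.lt_succ_of_le hP₂.hAW⟩, ⟨B', Nat.lt_succ_of_le hP₂.hBW⟩))
      hjl hjl' hne hP₁.hA hP₁.hB hP₂.hB hP₁.hμ hP₂.hμ x hx (fun i => ⟨x i, (hall i).le⟩) Y
      (fun i => rfl) (fun i => hY i (hall i)) hall ζ₁ ζ₂ f₁ f₂ hf₁ hff₁ hf₂ hff₂ e₁ e₂
    have hmemS : ∀ i, 𝓛.red ⟨x i, (hall i).le⟩ ∈ S := by
      intro i
      right
      rw [Set.mem_iUnion]
      exact ⟨(_, i), _, hTm, rfl⟩
    exact hfin j l hjl (hall j) (hall l) (hmemS j) (hmemS l) A B g₁ 0 ζ₁ ε₁ hP₁ (by norm_num)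
  · push Not at hall
    obtain ⟨a, ha⟩ := hall
    have hg : ∀ j, j ≠ a → ‖x j‖ = 1 := fun j hj =>
      (𝓛.one_bad hx hj).resolve_right ha
    obtain ⟨s, z, e, hz, hC, heX, hn, hs, hroot⟩ := 𝓛.bad_data hx ha
    have hmemS : ∀ i (hi : ‖x i‖ = 1), i ≠ a → 𝓛.red ⟨x i, hi.le⟩ ∈ S := by
      intro i hi hia
      obtain ⟨y, hy, hxy⟩ := hroot i hia
      left
      rw [Set.mem_iUnion]
      refine ⟨(a, s, i), y, hy, ?_⟩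
      show 𝓛.red (𝓛.ψO _) = _
      symm
      apply 𝓛.red_congr
      show ‖x i - 𝓛.ψ _‖ < 1
      rw [hxy]
      exact (ev_sub_le hC heX hn hz.le _).trans_lt hz
    obtain ⟨j, hj, l, hl, hjl, hc⟩ := coll cls (Finset.univ.erase a)
      (by rw [Finset.card_erase_of_mem (Finset.mem_univ a)]; simp; omega)
      (fun x hx => hnone x (hg x (Finset.ne_of_mem_erase hx)))
    have hja := Finset.ne_of_mem_erase hj
    have hla := Finset.ne_of_mem_erase hl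
    obtain ⟨A, B, g₁, s₁, ζ₁, ε₁, hP₁⟩ := hinfo j l hjl (hg j hja) (hg l hla) hc
    have hG := hP₁.mem_GG (hYn j (hg j hja)) (hYn l (hg l hla))
    refine hfin j l hjl (hg j hja) (hg l hla) (hmemS j (hg j hja) hja)
      (hmemS l (hg l hla) hla) A B g₁ s₁ ζ₁ ε₁ hP₁ ?_
    obtain ⟨y, hy, hxy⟩ := hroot j hja
    obtain ⟨y', hy', hxy'⟩ := hroot l hla
    by_cases hsmall : ‖z‖ ^ N ≤ ‖(p : C)‖
    · by_contra hs₁
      obtain ⟨t, rfl⟩ : ∃ t, s₁ = t + 1 := ⟨s₁ - 1, by omega⟩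
      exact 𝓛.no_wild_cm (Y := Y) (j := j) (l := l) hz hC heX hn hsmall
        (by rw [hY j (hg j hja)]; exact hxy) (by rw [hY l (hg l hla)]; exact hxy') hP₁.hε hG
    · push Not at hsmall
      have hcls : cls a ≠ none := by
        intro hcls
        have h1 := hcm a hcls
        have h2 : ‖(p : C)‖ < ‖x a‖ := by
          rcases hs with ⟨-, -, h⟩ | ⟨h, -, -⟩
          · rw [← h, norm_pow]; exact hsmall
          · exact 𝓛.hp1.trans h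
        rw [𝓛.X_norm (hX a) h2] at h1
        have h3 := 𝓛.Lam_inv a
        have h4 : 0 < ‖((𝓛.Λ a : Cˣ) : C)‖ := norm_pos_iff.2 (𝓛.Λ a).ne_zero
        rw [inv_le_iff_one_le_mul₀ h4] at h3
        nlinarith
      have hnone' : ∀ x, cls x ≠ none := by
        intro i
        by_cases hi : i = a
        · rw [hi]; exact hcls
        · exact hnone i (hg i hi)
      obtain ⟨j', hj', l', hl', hjl', hc'⟩ := coll cls (Finset.univ.erase l)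
        (by rw [Finset.card_erase_of_mem (Finset.mem_univ l)]; simp; omega)
        (fun x _ => hnone' x)
      have h1 := Finset.ne_of_mem_erase hj'
      have h2 := Finset.ne_of_mem_erase hl'
      have hexc : ∀ m, m ≠ a → (∃ c, cls m = some c ∧ cls a = some c) → s₁ ≤ 2 := by
        intro m hma ⟨c, hcm', hca⟩
        by_contra hs₁
        obtain ⟨t, rfl⟩ : ∃ t, s₁ = t + 1 := ⟨s₁ - 1, by omega⟩
        obtain ⟨w, w', a', b', c', d', hdet, hrel, hw, hw'⟩ := hZ _ _ _ hma hcm' hca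
        obtain ⟨y'', hy'', hxy''⟩ := hroot m hma
        have := 𝓛.exc_case hx hX hz hC heX hn hs hsmall hja hla hma hjl hy hy' hxy hxy' hxy''
          (hY j (hg j hja)) (hY l (hg l hla)) (hY m (hg m hma)) hP₁.hA hP₁.hB hP₁.hAW hP₁.hBW
          hP₁.hε hG hdet hrel hw hw'
        omega
      by_cases hj'a : j' = a
      · subst hj'a
        obtain ⟨c, hc1, hc2⟩ := hc'
        exact hexc l' hjl'.symm ⟨c, hc2, hc1⟩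
      · by_cases hl'a : l' = a
        · subst hl'a
          obtain ⟨c, hc1, hc2⟩ := hc'
          exact hexc j' hjl' ⟨c, hc1, hc2⟩
        · obtain ⟨A', B', g₂, s₂, ζ₂, ε₂, hP₂⟩ := hinfo j' l' hjl' (hg j' hj'a) (hg l' hl'a) hc'
          have := (𝓛.no_wild2 hx (hY j (hg j hja)) (hY l (hg l hla)) (hY j' (hg j' hj'a))
            (hY l' (hg l' hl'a)) (hg j hja) (hg l hla) (hg j' hj'a) (hg l' hl'a) hjl hjl' (by
              rintro (⟨-, h⟩ | ⟨h, -⟩)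
              · exact h2 h
              · exact h1 h) hP₁ hP₂).1
          omega

theorem local_core [CharP k p] [IsAlgClosed k] : ∃ G : ℕ, ∀ (X : Fin n → QA) (x : Fin n → C),
    𝓛.Pt x → (∀ i, 𝓛.φ (X i) = 𝓛.Λ i * x i + 𝓛.tm i) → ∀ (r : ℕ) (cls : Fin n → Option (Fin r)),
    r + 2 ≤ n → (∀ i, cls i = none → ‖𝓛.φ (X i)‖ ≤ 1) →
    (∀ j l c, cls j = some c → cls l = some c → ∃ (w w' : ℍ) (a b c' d' : ℤ),
      0 < a * d' - b * c' ∧ (w' : ℂ) * (c' * w + d') = a * w + b ∧ rA (X j) = jj w ∧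
      rA (X l) = jj w') → ∃ j l : Fin n, j ≠ l ∧ ∃ N' : ℕ, 0 < N' ∧ N' ≤ G ∧
      PsiE ιZ (mP N') (mD N') (rA (X j)) (rA (X l)) = 0 := by
  obtain ⟨G, hG⟩ := 𝓛.local_core'
  exact ⟨G, fun X x h1 h2 r cls h3 h4 h5 => hG X x h1 h2 r cls h3 h4 fun j l c _ => h5 j l c⟩

end Loc

end Pool.Agent.Y226.ZG
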