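import Pool.Agent.Y226.ZM.Tate3

/-!
# Local lemmas for general monomials
-/

set_option autoImplicit false
set_option linter.unusedSectionVars false

open UpperHalfPlane H294ZP Polynomial

namespace Pool.Agent.Y226.ZG

open Pool.Agent.Y226

theorem LI_symm {n : ℕ} {v w : Fin n → ℤ} (h : LI v w) : LI w v := by
  intro a b hab h0
  refine h b a (fun h1 => hab ?_) ?_
  · rw [Prod.mk.injEq] at h1 ⊢
    exact ⟨h1.2, h1.1⟩
  · funext i
    have := congrFun h0 i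
    simp only [Pi.zero_apply] at this ⊢
    linarith

/-- independence of `vec j l A B` and a vector which vanishes at `j` and `l` -/
theorem LI_vec_off {n : ℕ} {j l : Fin n} {A B : ℕ} {b : Fin n → ℤ} (hjl : j ≠ l) (hB : 0 < B)
    (hbl : b l = 0) (hb : b ≠ 0) : LI (vec j l A B) b := by
  intro a c hac h0
  have hl := congrFun h0 l
  simp only [vec, Pi.zero_apply, if_true, if_neg hjl.symm, hbl, sub_zero, mul_zero,
    add_zero] at hl
  have ha : a = 0 := by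
    rcases mul_eq_zero.1 hl with h | h
    · exact h
    · omega
  obtain ⟨i, hi⟩ : ∃ i, b i ≠ 0 := by
    by_contra hcon
    push Not at hcon
    exact hb (funext hcon)
  have h1 := congrFun h0 i
  simp only [ha, zero_mul, zero_add, Pi.zero_apply] at h1
  rcases mul_eq_zero.1 h1 with h | h
  · exact hac (by rw [ha, h])
  · exact hi h

namespace Loc

section a

variable {C : Type} [NormedField C] [IsUltrametricDist C] {p : ℕ} [hpf : Fact p.Prime] {k : Type}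
  [Field k] {n N W M d D : ℕ} (𝓛 : Loc C p k n N W M d D)

/-- no wild torsion for two independent monomials -/
theorem no_wild_gen {x : Fin n → C} (hx : 𝓛.Pt x) {v w : Fin n → ℤ} (hv : Bv M v) (hw : Bv M w)
    (hvw : LI v w) (hsupp : ∀ i, v i ≠ 0 ∨ w i ≠ 0 → x i ≠ 0) {F₁ F₂ : Cˣ}
    (hF₁ : (F₁ : C) = ∏ i, x i ^ v i) (hF₂ : (F₂ : C) = ∏ i, x i ^ w i) {ε₁ ε₂ : Cˣ} {s : ℕ}
    (hε₁ : IsPrimitiveRoot (ε₁ : C) (p ^ (s + 1))) (hε₂ : (ε₂ : C) ^ p ^ (s + 1) = 1)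
    (hG₁ : F₁ * ε₁ ∈ GG C p ‖(p : C)‖ (norm_nonneg _) 𝓛.hp1)
    (hG₂ : F₂ * ε₂ ∈ GG C p ‖(p : C)‖ (norm_nonneg _) 𝓛.hp1) : False := by
  have hb2 := 𝓛.b2
  obtain ⟨D', h1, h2⟩ := lemW 𝓛.red 𝓛.hker 𝓛.p_ne_two 𝓛.hp0 𝓛.hp1
    (fun m => 𝓛.ψO (cf (𝓛.𝓡.h v w) m)) (fun m => 𝓛.ψ_Nr _)
    (𝓛.hNC hv hw hvw) (by omega) (𝓛.relsum hx hv hw hvw hsupp hF₁ hF₂) hε₁ hε₂ le_rfl hG₁ hG₂
  have hρ0 : 0 < ‖(ε₁ : C) - 1‖ := PData.root_pos 𝓛.p_ne_two 𝓛.hp1 𝓛.hp0 hε₁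
  have hρ1 : ‖(ε₁ : C) - 1‖ < 1 := ppow_root_lt 𝓛.hp1 hε₁.pow_eq_one
  rw [← ppow_root_norm 𝓛.p_ne_two 𝓛.hp1 hε₁] at h2
  have h3 : p ^ s * (p - 1) ≤ D' := (pow_le_pow_iff_right_of_lt_one₀ hρ0 hρ1).1 h2
  have h4 : (p ^ s * (p - 1)) ^ 2 ≤ 16 * d ^ 2 * p ^ (s + 1) := (Nat.pow_le_pow_left h3 2).trans h1
  obtain ⟨q, hq⟩ : ∃ q, p = q + 1 := ⟨p - 1, by have := hpf.out.two_le; omega⟩
  have h5 : p - 1 = q := by omega
  rw [h5, mul_pow, pow_succ] at h4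
  have h6 : 1 ≤ p ^ s := Nat.one_le_pow _ _ hpf.out.pos
  have h7 : p ^ s * (p ^ s * q ^ 2) ≤ p ^ s * (16 * d ^ 2 * p) := by
    calc p ^ s * (p ^ s * q ^ 2) = (p ^ s) ^ 2 * q ^ 2 := by ring
      _ ≤ 16 * d ^ 2 * (p ^ s * p) := h4
      _ = p ^ s * (16 * d ^ 2 * p) := by ring
  have h8 := Nat.le_of_mul_le_mul_left h7 (by omega)
  have h9 : q ^ 2 ≤ 16 * d ^ 2 * p := by
    calc q ^ 2 = 1 * q ^ 2 := (one_mul _).symm
      _ ≤ p ^ s * q ^ 2 := Nat.mul_le_mul_right _ h6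
      _ ≤ _ := h8
  have h10 : 16 * d ^ 2 + 2 ≤ q := by omega
  have h11 : 16 * d ^ 2 * p = 16 * d ^ 2 * (q + 1) := by rw [hq]
  rw [h11] at h9
  nlinarith

/-- units of the valuation ring -/
theorem red_ne {u : OO C} (hu : ‖(u : C)‖ = 1) : 𝓛.red u ≠ 0 := by
  rw [Ne, 𝓛.hker, hu]; exact lt_irrefl 1

/-- reduction of monomials -/
theorem red_prod {x : Fin n → C} {xO : Fin n → OO C} {v : Fin n → ℤ}
    (hxO : ∀ i, v i ≠ 0 → (xO i : C) = x i) (hx1 : ∀ i, v i ≠ 0 → ‖(xO i : C)‖ = 1) {F : OO C}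
    (hF : (F : C) = ∏ i, x i ^ v i) : 𝓛.red F = ∏ i, 𝓛.red (xO i) ^ v i := by
  have h1 : F * ∏ i, xO i ^ (-v i).toNat = ∏ i, xO i ^ (v i).toNat := by
    apply Subtype.ext
    have e1 : ((∏ i, xO i ^ (-v i).toNat : OO C) : C) = ∏ i, (xO i : C) ^ (-v i).toNat := by
      push_cast
      rfl
    have e2 : ((∏ i, xO i ^ (v i).toNat : OO C) : C) = ∏ i, (xO i : C) ^ (v i).toNat := by
      push_cast
      rfl
    show (F : C) * ((∏ i, xO i ^ (-v i).toNat : OO C) : C) = ((∏ i, xO i ^ (v i).toNat : OO C) : C)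
    rw [e1, e2, hF, ← Finset.prod_mul_distrib]
    refine Finset.prod_congr rfl fun i _ => ?_
    by_cases hi : v i = 0
    · simp [hi]
    · rw [hxO i hi]
      exact (zpow_split (fun _ => by
        rw [← hxO i hi]
        exact norm_pos_iff.1 (by rw [hx1 i hi]; exact one_pos))).symm
  have h2 := congrArg 𝓛.red h1
  rw [map_mul, map_prod, map_prod] at h2
  have h3 : ∏ i, 𝓛.red (xO i ^ (-v i).toNat) ≠ 0 := by
    refine Finset.prod_ne_zero_iff.2 fun i _ => ?_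
    rw [map_pow]
    by_cases hi : v i = 0
    · simp [hi]
    · exact pow_ne_zero _ (𝓛.red_ne (hx1 i hi))
  apply mul_right_cancel₀ h3
  rw [h2, ← Finset.prod_mul_distrib]
  refine Finset.prod_congr rfl fun i _ => ?_
  rw [map_pow, map_pow]
  exact zpow_split (fun h => 𝓛.red_ne (hx1 i h))

end a

variable {C : Type} [NormedField C] [IsUltrametricDist C] [CharZero C]
  [IsAlgClosed C] {p : ℕ} [hpf : Fact p.Prime] {k : Type}
  [Field k] {n N W M d D : ℕ} (𝓛 : Loc C p k n N W M d D)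

/-- the tame solutions for two independent monomials -/
theorem tame_core [CharP k p] [IsAlgClosed k] {v w : Fin n → ℤ} (hv : Bv M v) (hw : Bv M w)
    (hvw : LI v w) (P₁ P₂ : MvPolynomial (Fin n × Bool) k) :
    ∃ T : Set (Fin n → k), T.Finite ∧ ∀ (x : Fin n → C), 𝓛.Pt x → ∀ (xO : Fin n → OO C),
      (∀ i, (xO i : C) = x i) → (∀ i, ‖(xO i : C)‖ = 1) → ∀ F e R F' e' R' : OO C,
      (F : C) = ∏ i, x i ^ v i → (F' : C) = ∏ i, x i ^ w i → F = e * (1 + p * R) →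
      F' = e' * (1 + p * R') → (∃ f : ℕ, 0 < f ∧ e ^ p ^ f = e) →
      (∃ f : ℕ, 0 < f ∧ e' ^ p ^ f = e') →
      𝓛.red R = MvPolynomial.aeval (xx fun i => 𝓛.red (xO i)) P₁ →
      𝓛.red R' = MvPolynomial.aeval (xx fun i => 𝓛.red (xO i)) P₂ →
      (fun i => 𝓛.red (xO i)) ∈ T := by
  classical
  set h := 𝓛.𝓡.h v w with hh
  choose τ vv hc hτ using fun m => 𝓛.teichO (c := 𝓛.ψO (cf h m)) (𝓛.ψ_Nr _)
  -- the polynomials
  let 𝓑 : MvPolynomial (Fin n × Bool) k := ∑ m ∈ box d,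
    (MvPolynomial.C (𝓛.red (vv m)) * Mv k v ^ m.1 * Mv k w ^ m.2 +
      MvPolynomial.C (𝓛.red (𝓛.ψO (cf h m))) * Mv k v ^ m.1 * Mv k w ^ m.2 *
        ((m.1 : MvPolynomial (Fin n × Bool) k) * P₁ + (m.2 : MvPolynomial (Fin n × Bool) k) * P₂))
  obtain ⟨U, V, r, hr, hUV⟩ := 𝓛.𝓡.hUV v w hv hw hvw
  have hχunit : ∀ r : 𝓛.R, IsUnit r → 𝓛.χ r ≠ 0 := fun r hr => (hr.map 𝓛.χ).ne_zero
  have hN0 : (N : k) ≠ 0 := by
    intro h0
    have h1 := (CharP.cast_eq_zero_iff k p N).1 h0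
    have h2 := Nat.le_of_dvd 𝓛.hN h1
    have := 𝓛.b3
    omega
  have hfin := tame_fin (k := k) (p := p) 𝓛.hN hN0
    (fun i j => (𝓛.𝓡.g i false j).map (mapRingHom 𝓛.χ))
    (fun i j => Units.map (PowerSeries.map 𝓛.χ).toMonoidHom (𝓛.𝓡.L i false j))
    (fun i j => (𝓛.𝓡.ys i false j).map (Units.map (PowerSeries.map 𝓛.χ).toMonoidHom))
    (fun i j hij => (𝓛.𝓡.fac i false j hij).map 𝓛.χ)
    (by
      intro i j hij y hy
      obtain ⟨y₀, hy₀, rfl⟩ := Multiset.mem_map.1 hy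
      obtain ⟨m, hm, hu⟩ := 𝓛.𝓡.yn i false j hij y₀ hy₀
      refine ⟨m, hm, ?_⟩
      have e1 : ((Units.map (PowerSeries.map 𝓛.χ).toMonoidHom y₀ : (PowerSeries k)ˣ) :
        PowerSeries k) = PowerSeries.map 𝓛.χ (y₀ : PowerSeries 𝓛.R) := rfl
      rw [e1, PowerSeries.coeff_map]
      exact hχunit _ hu)
    v w (fun c₁ c₂ hc => LI_mod hv hw hvw 𝓛.b6 c₁ c₂ hc)
    (h := h.map (mapRingHom 𝓛.χ)) (d := d) ((𝓛.𝓡.hBD v w hv hw hvw).map 𝓛.χ)
    (U := U.map (mapRingHom 𝓛.χ)) (V := V.map (mapRingHom 𝓛.χ)) (r := r.map 𝓛.χ)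
    (by
      obtain ⟨i, hi⟩ := hr
      intro h0
      have := congrArg (fun f => coeff f i) h0
      simp only [coeff_map, coeff_zero] at this
      exact hχunit _ hi this)
    (by
      have := congrArg (Polynomial.map (mapRingHom 𝓛.χ)) hUV
      rw [Polynomial.map_add, Polynomial.map_mul, Polynomial.map_mul, Polynomial.map_mul,
        ← derivative_map, Polynomial.map_X, Polynomial.map_C] at this
      exact this) 𝓑
  refine ⟨_, hfin, ?_⟩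
  intro x hx xO hxO hx1 F e R F' e' R' hFC hFC' hFe hFe' he he' hR hR'
  have hx0 : ∀ i, x i ≠ 0 := fun i => by
    rw [← hxO]; exact norm_pos_iff.1 (by rw [hx1]; exact one_pos)
  set xb : Fin n → k := fun i => 𝓛.red (xO i) with hxb
  have hxb0 : ∀ i, xb i ≠ 0 := fun i => 𝓛.red_ne (hx1 i)
  have hFv : 𝓛.red F = ∏ i, xb i ^ v i := 𝓛.red_prod (fun i _ => hxO i) (fun i _ => hx1 i) hFC
  have hFw : 𝓛.red F' = ∏ i, xb i ^ w i := 𝓛.red_prod (fun i _ => hxO i) (fun i _ => hx1 i) hFC'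
  have halg : algebraMap k k = RingHom.id k := rfl
  have hpush : ∀ (P Q : OO C) (q : 𝓛.R[X][X]), E2 𝓛.ψ (P : C) (Q : C) q = 0 →
      E2 (algebraMap k k) (𝓛.red P) (𝓛.red Q) (q.map (mapRingHom 𝓛.χ)) = 0 := by
    intro P Q q h0
    have h1 : E2 𝓛.ψO P Q q = 0 := by
      apply Subtype.ext
      have h2 := map_E2 (OO C).subtype 𝓛.ψO P Q q
      exact h2.trans h0
    have h2 := congrArg 𝓛.red h1
    rw [map_zero, map_E2] at h2
    rw [E2_map, halg, RingHom.id_comp]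
    exact h2
  refine ⟨hxb0, ?_, ?_, ?_⟩
  · intro i j hij
    exact hpush _ _ _ (by rw [hxO, hxO]; exact hx.r1 i j hij)
  · rw [← hFv, ← hFw]
    refine hpush _ _ _ ?_
    rw [hFC, hFC']
    exact hx.r2 v w hv hw hvw (fun i _ => hx0 i)
  · have hrel : ∑ m ∈ box d, 𝓛.ψO (cf h m) * F ^ m.1 * F' ^ m.2 = 0 := by
      apply Subtype.ext
      have h1 := 𝓛.relsum hx hv hw hvw (fun i _ => hx0 i) hFC hFC'
      have h2 : (((∑ m ∈ box d, 𝓛.ψO (cf h m) * F ^ m.1 * F' ^ m.2 : OO C)) : C) =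
          ∑ m ∈ box d, ((𝓛.ψO (cf h m) : OO C) : C) * (F : C) ^ m.1 * (F' : C) ^ m.2 := by
        push_cast
        rfl
      rw [h2]
      exact h1
    have h1 := tame_eq2 𝓛.red 𝓛.pO_ne (fun m => 𝓛.ψO (cf h m)) τ vv hc hτ he he' hFe hFe' hrel
    simp only [cf_map]
    rw [← hFv, ← hFw]
    refine h1.trans ?_
    congr 1
    show _ = MvPolynomial.aeval (xx xb) (∑ m ∈ box d,
      (MvPolynomial.C (𝓛.red (vv m)) * Mv k v ^ m.1 * Mv k w ^ m.2 +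
        MvPolynomial.C (𝓛.red (𝓛.ψO (cf h m))) * Mv k v ^ m.1 * Mv k w ^ m.2 *
        ((m.1 : MvPolynomial (Fin n × Bool) k) * P₁ + (m.2 : MvPolynomial (Fin n × Bool) k) * P₂)))
    rw [map_sum]
    refine Finset.sum_congr rfl fun m _ => ?_
    rw [map_add, map_mul, map_mul, map_mul, map_mul, map_mul, map_add, map_mul, map_mul,
      map_natCast, map_natCast, map_pow, map_pow, aeval_Mv hxb0, aeval_Mv hxb0, ← hR, ← hR',
      MvPolynomial.aeval_C, MvPolynomial.aeval_C, ← hFv, ← hFw, halg]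
    rfl

end Loc

end Pool.Agent.Y226.ZG
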