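import Pool.Agent.Y226.ZM.L1

/-!
# A pair of modular coordinates and a multiplicative relation
-/

set_option autoImplicit false
set_option linter.unusedSectionVars false

open UpperHalfPlane H294ZP Polynomial

namespace Pool.Agent.Y226.ZG

open Pool.Agent.Y226 Pool.Agent.Y226.ZM

namespace Loc

variable {C : Type} [NormedField C] [IsUltrametricDist C] [CompleteSpace C] [CharZero C]
  [IsAlgClosed C] {p : ℕ} [hpf : Fact p.Prime] {k : Type}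
  [Field k] {n N W M d D : ℕ} (𝓛 : Loc C p k n N W M d D)

theorem root_norm {ζ : C} {g : ℕ} (hg : 0 < g) (hζ : ζ ^ g = 1) : ‖ζ‖ = 1 := by
  have h1 : ‖ζ‖ ^ g = 1 := by rw [← norm_pow, hζ, norm_one]
  exact (pow_eq_one_iff_of_nonneg (norm_nonneg _) hg.ne').1 h1

/-- the order of a tame root of unity is the order of its residue -/
theorem ord_red {Z : OO C} {g : ℕ} (hcop : g.Coprime p) (hζ : IsPrimitiveRoot (Z : C) g) :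
    orderOf (𝓛.red Z) = g := by
  refine IsPrimitiveRoot.eq_orderOf ?_ |>.symm
  refine ⟨?_, fun m hm => ?_⟩
  · rw [← map_pow]
    have : Z ^ g = 1 := Subtype.ext hζ.pow_eq_one
    rw [this, map_one]
  · apply hζ.dvd_of_pow_eq_one
    rw [← map_pow, ← sub_eq_zero, ← map_one 𝓛.red, ← map_sub, 𝓛.hker] at hm
    have hm' : ‖(Z : C) ^ m - 1‖ < 1 := hm
    refine tame_eq_one (m := g) ?_ ?_ hm'
    · have hco : IsCoprime (g : ℤ) (p : ℤ) := Nat.isCoprime_iff_coprime.2 hcop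
      obtain ⟨u, v, huv⟩ := hco
      have h2 : (u : C) * (g : C) - 1 = -(v * p) := by
        have := congrArg (Int.cast : ℤ → C) huv
        push_cast at this
        linear_combination this
      have h3 : ‖(u : C) * (g : C)‖ = 1 := by
        refine neq_one (y := 1) ?_ norm_one
        rw [h2, norm_neg]
        exact (nmul_le (nint v) le_rfl).trans_lt 𝓛.hp1
      rw [norm_mul] at h3
      have h4 := nint (C := C) u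
      have h5 := nnat (C := C) g
      have h6 := norm_nonneg (u : C)
      have h7 := norm_nonneg (g : C)
      nlinarith
    · rw [← pow_mul, mul_comm, pow_mul, hζ.pow_eq_one, one_pow]

/-- the norm of a monomial in units -/
theorem mon_norm {x : Fin n → C} {b : Fin n → ℤ} (hx1 : ∀ i, b i ≠ 0 → ‖x i‖ = 1) :
    ‖∏ i, x i ^ b i‖ = 1 := by
  rw [norm_prod]
  refine Finset.prod_eq_one fun i _ => ?_
  by_cases hi : b i = 0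
  · simp [hi]
  · rw [norm_zpow, hx1 i hi, one_zpow]

/-- the order of the tame part of a multiplicative relation is bounded when the residues are in a
finite set -/
theorem order_bound_mul {S : Set k} (hS : S.Finite) (κ : Cˣ) (hκ : ‖(κ : C)‖ = 1)
    (b : Fin n → ℤ) : ∃ G : ℕ, ∀ (x : Fin n → C) (xO : Fin n → OO C),
      (∀ i, b i ≠ 0 → (xO i : C) = x i) → (∀ i, b i ≠ 0 → ‖(xO i : C)‖ = 1) →
      (∀ i, b i ≠ 0 → 𝓛.red (xO i) ∈ S) → ∀ (g' s : ℕ) (ζ' ε : C), 0 < g' → g'.Coprime p →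
      IsPrimitiveRoot ζ' g' → IsPrimitiveRoot ε (p ^ s) → (κ : C) * ∏ i, x i ^ b i = ζ' * ε →
      g' ≤ G := by
  classical
  set κO : OO C := ⟨(κ : C), hκ.le⟩ with hκO
  let f : (Fin n → k) → ℕ := fun t => orderOf (𝓛.red κO * ∏ i, t i ^ b i)
  have hfin : (f '' (Set.pi Set.univ fun i => if b i = 0 then {1} else S)).Finite := by
    refine Set.Finite.image _ (Set.Finite.pi fun i => ?_)
    split_ifs
    · exact Set.finite_singleton _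
    · exact hS
  obtain ⟨G, hG⟩ := hfin.bddAbove
  refine ⟨G, ?_⟩
  intro x xO hxO hx1 hxS g' s ζ' ε hg hcop hζ hε hrel
  have hζn : ‖ζ'‖ = 1 := root_norm hg hζ.pow_eq_one
  set Z : OO C := ⟨ζ', hζn.le⟩ with hZ
  have hord : orderOf (𝓛.red Z) = g' := 𝓛.ord_red hcop hζ
  have hFn : ‖∏ i, x i ^ b i‖ = 1 := mon_norm fun i hi => by rw [← hxO i hi]; exact hx1 i hi
  set F : OO C := ⟨∏ i, x i ^ b i, hFn.le⟩ with hF
  have hFr : 𝓛.red F = ∏ i, 𝓛.red (xO i) ^ b i := 𝓛.red_prod hxO hx1 rfl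
  have hεlt : ‖ε - 1‖ < 1 := ppow_root_lt 𝓛.hp1 hε.pow_eq_one
  have h1 : 𝓛.red Z = 𝓛.red (κO * F) := by
    apply 𝓛.red_congr
    show ‖ζ' - (κ : C) * ∏ i, x i ^ b i‖ < 1
    rw [hrel]
    have e1 : ζ' - ζ' * ε = -(ζ' * (ε - 1)) := by ring
    rw [e1, norm_neg, norm_mul, hζn, one_mul]
    exact hεlt
  rw [← hord, h1, map_mul, hFr]
  apply hG
  refine ⟨fun i => if b i = 0 then 1 else 𝓛.red (xO i), ?_, ?_⟩
  · intro i _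
    by_cases hi : b i = 0
    · simp [hi]
    · simp only [if_neg hi]
      exact hxS i hi
  · show orderOf _ = orderOf _
    congr 2
    refine Finset.prod_congr rfl fun i _ => ?_
    by_cases hi : b i = 0
    · simp [hi]
    · simp [hi]

/-- information on a pair from an isogeny -/
theorem PI_of_rel {κ : Fin n → OO C}
    (hκ : ∀ i, (p : C) * κ i * 𝓛.Λ i = 𝓛.φ (iA (cj 1)) - 𝓛.tm i) {X : Fin n → QA} {x : Fin n → C}
    {Y : Fin n → Cˣ} (hX : ∀ i, 𝓛.φ (X i) = 𝓛.Λ i * x i + 𝓛.tm i) {j l : Fin n}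
    (hj : ‖x j‖ = 1) (hl : ‖x l‖ = 1) (hYj : (Y j : C) = x j) (hYl : (Y l : C) = x l)
    {τ w : ℍ} {a b c d' : ℤ}
    (hdet : 0 < a * d' - b * c) (hw : (w : ℂ) * (c * τ + d') = a * τ + b)
    (hjτ : rA (X j) = jj τ) (hkw : rA (X l) = jj w) :
    ∃ (A B g' s : ℕ) (ζ' ε : Cˣ), PI 𝓛 κ Y X j l A B g' s ζ' ε ∧ A * B * (g' * p ^ s) ^ 2 ≤
      (a * d' - b * c).toNat ∧ ∃ h : ℕ, 0 < h ∧
        ((A * B * (g' * p ^ s) ^ 2 * h ^ 2 : ℕ) : ℤ) = a * d' - b * c := by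
  have hYjn : ‖((Y j : Cˣ) : C)‖ = 1 := by rw [hYj]; exact hj
  have hYln : ‖((Y l : Cˣ) : C)‖ = 1 := by rw [hYl]; exact hl
  obtain ⟨A, B, g', s, ζ', ε, h1, h2, h3, h4, h5, h6, h7, h8, h9, h10, h11, h, h12, h13⟩ :=
    pair_info3 𝓛.φ 𝓛.hp0 𝓛.hp1 𝓛.hpu 𝓛.he (𝓛.hw j).1 (𝓛.hw l).1 (𝓛.hΛ j) (𝓛.hΛ l)
      (hκ j) (hκ l) hYjn hYln (by rw [hX, hYj]) (by rw [hX, hYl]) hdet hw hjτ hkw
  refine ⟨A, B, g', s, ζ', ε, ⟨h1, h2, ?_, ?_, h5, h6, h7, h8, h9, h10, h11⟩, ?_, h, h12, h13⟩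
  · have h14 : A ∣ B * 𝓛.w l := ⟨_, h4⟩
    exact (Nat.le_of_dvd (𝓛.hw l).1 (h3.dvd_of_dvd_mul_left h14)).trans (𝓛.hw l).2
  · have h14 : B ∣ A * 𝓛.w j := ⟨_, h4.symm⟩
    exact (Nat.le_of_dvd (𝓛.hw j).1 (h3.symm.dvd_of_dvd_mul_left h14)).trans (𝓛.hw j).2
  · have h14 : A * B * (g' * p ^ s) ^ 2 ≤ A * B * (g' * p ^ s) ^ 2 * h ^ 2 :=
      Nat.le_mul_of_pos_right _ (pow_pos h12 2)
    refine h14.trans ?_
    rw [← h13, Int.toNat_natCast]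

/-- the tame solutions for a pair and a multiplicative relation -/
theorem tame_mix [CharP k p] [IsAlgClosed k] (κ : Fin n → OO C) {j l : Fin n}
    {A B : ℕ} (hjl : j ≠ l) (hB : 0 < B)
    (hAW : A ≤ W) (hBW : B ≤ W)
    (hμ : 𝓛.Λ l ^ B * (𝓛.Λ j ^ A)⁻¹ ∈ GG C p 0 le_rfl one_pos) {b : Fin n → ℤ} (hb : Bv M b)
    (hbl : b l = 0) (hb0 : b ≠ 0) {ν : Cˣ} (hν : ν ∈ GG C p 0 le_rfl one_pos) :
    ∃ T : Set (Fin n → k), T.Finite ∧ ∀ (x : Fin n → C), 𝓛.Pt x → ∀ (xO : Fin n → OO C)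
      (Y : Fin n → Cˣ), (∀ i, (xO i : C) = x i) → (∀ i, (Y i : C) = xO i) →
      (∀ i, ‖(xO i : C)‖ = 1) →
      ∀ (ζ ζ' : Cˣ) (f f' : ℕ), 0 < f → (ζ : C) ^ p ^ f = ζ → 0 < f' → (ζ' : C) ^ p ^ f' = ζ' →
      ‖((𝓛.Λ l ^ B * (𝓛.Λ j ^ A)⁻¹ * (Y l ^ B * (Y j ^ A)⁻¹) * ζ : Cˣ) : C) -
        (1 + p * (B * (κ l * ((Y l : Cˣ) : C)⁻¹) - A * (κ j * ((Y j : Cˣ) : C)⁻¹)))‖ ≤
          ‖(p : C)‖ ^ 2 →
      (ν : C) * ∏ i, x i ^ b i = ζ' →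
      (fun i => 𝓛.red (xO i)) ∈ T := by
  classical
  have hM := 𝓛.hM
  have hv : Bv M (vec j l A B) := Bv_vec (by omega) (by omega) hjl
  have hvw : LI (vec j l A B) b := LI_vec_off hjl hB hbl hb0
  obtain ⟨ν₁, hν₁⟩ := 𝓛.pair_tame κ hμ
  obtain ⟨τ, ν₂, hντ, f₂, hf₂, hτ⟩ := 𝓛.teichU hν
  let P₁ : MvPolynomial (Fin n × Bool) k := MvPolynomial.C (𝓛.red ν₁) +
    ((B : MvPolynomial (Fin n × Bool) k) * (MvPolynomial.C (𝓛.red (κ l)) * MvPolynomial.X (l, true)) -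
    (A : MvPolynomial (Fin n × Bool) k) * (MvPolynomial.C (𝓛.red (κ j)) * MvPolynomial.X (j, true)))
  obtain ⟨T, hT, hT'⟩ := 𝓛.tame_core hv hb hvw P₁ (MvPolynomial.C (𝓛.red ν₂))
  refine ⟨T, hT, ?_⟩
  intro x hx xO Y hxO hY hx1 ζ ζ' f f' hf hζ hf' hζ' hexp hmul
  obtain ⟨F, e, R, hF, hFe, he, hR, -⟩ := hν₁ xO Y hY hx1 ζ f hf hζ hexp
  have hx0 : ∀ i, x i ≠ 0 := fun i => by
    rw [← hxO]; exact norm_pos_iff.1 (by rw [hx1]; exact one_pos)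
  have hζNr := Nr_of_fixed hf' hζ'
  set Z : OO C := ⟨(ζ' : C), Nr_le hζNr⟩ with hZ
  refine hT' x hx xO hxO hx1 F e R (Z * τ * (1 + p * ν₂)) (Z * τ) ν₂ ?_ ?_ hFe rfl he ?_ ?_ ?_
  · rw [prod_vec x hjl (hx0 j), hF, Units.val_mul, Units.val_pow_eq_pow_val,
      Units.val_inv_eq_inv_val, Units.val_pow_eq_pow_val, hY, hY, hxO, hxO]
  · have e0 : ((p : OO C) : C) = p := by simp
    show (ζ' : C) * (τ : C) * (1 + ((p : OO C) : C) * (ν₂ : C)) = _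
    rw [e0, mul_assoc, ← hντ, ← hmul]
    rw [mul_right_comm, ← Units.val_mul, mul_inv_cancel, Units.val_one, one_mul]
  · refine ⟨f' * f₂, Nat.mul_pos hf' hf₂, ?_⟩
    have hZf : Z ^ p ^ f' = Z := Subtype.ext hζ'
    rw [mul_pow, mul_comm f' f₂, fixed_mul hτ f', mul_comm f₂ f', fixed_mul hZf f₂]
  · rw [hR]
    show _ = MvPolynomial.aeval (xx fun i => 𝓛.red (xO i)) (MvPolynomial.C (𝓛.red ν₁) +
        ((B : MvPolynomial (Fin n × Bool) k) * (MvPolynomial.C (𝓛.red (κ l)) * MvPolynomial.X (l, true)) -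
        (A : MvPolynomial (Fin n × Bool) k) * (MvPolynomial.C (𝓛.red (κ j)) * MvPolynomial.X (j, true))))
    simp only [map_add, map_sub, map_mul, map_natCast, MvPolynomial.aeval_X,
      MvPolynomial.aeval_C]
    simp [xx]
  · rw [MvPolynomial.aeval_C]
    rfl

/-- all coordinates are good, an isogeny and a multiplicative relation -/
theorem local_mix [CharP k p] [IsAlgClosed k] {b : Fin n → ℤ} (hb : Bv M b) (hb0 : b ≠ 0) {ν : Cˣ}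
    (hν : ν ∈ GG C p 0 le_rfl one_pos) : ∃ G : ℕ, ∀ (X : Fin n → QA) (x : Fin n → C),
    𝓛.Pt x → (∀ i, 𝓛.φ (X i) = 𝓛.Λ i * x i + 𝓛.tm i) → (∀ i, ‖x i‖ = 1) →
    ∀ j l : Fin n, j ≠ l → b j = 0 → b l = 0 → ∀ (τ w : ℍ) (a b' c d' : ℤ), 0 < a * d' - b' * c →
    (w : ℂ) * (c * τ + d') = a * τ + b' → rA (X j) = jj τ → rA (X l) = jj w →
    ∀ (ζ : C) (o : ℕ), 0 < o → IsPrimitiveRoot ζ o → (ν : C) * ∏ i, x i ^ b i = ζ →
    ∃ N' : ℕ, 0 < N' ∧ N' ≤ G ∧ PsiE ιZ (mP N') (mD N') (rA (X j)) (rA (X l)) = 0 := by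
  classical
  choose κ hκ using 𝓛.exists_κ
  have hM := 𝓛.hM
  let J := Fin n × Fin n × Fin (W + 1) × Fin (W + 1)
  have hT : ∀ q : J, ∃ T : Set (Fin n → k), T.Finite ∧ (q.1 ≠ q.2.1 → b q.2.1 = 0 →
      0 < (q.2.2.2 : ℕ) →
      𝓛.Λ q.2.1 ^ (q.2.2.2 : ℕ) * (𝓛.Λ q.1 ^ (q.2.2.1 : ℕ))⁻¹ ∈ GG C p 0 le_rfl one_pos →
      ∀ (x : Fin n → C), 𝓛.Pt x → ∀ (xO : Fin n → OO C)
      (Y : Fin n → Cˣ), (∀ i, (xO i : C) = x i) → (∀ i, (Y i : C) = xO i) →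
      (∀ i, ‖(xO i : C)‖ = 1) →
      ∀ (ζ ζ' : Cˣ) (f f' : ℕ), 0 < f → (ζ : C) ^ p ^ f = ζ → 0 < f' → (ζ' : C) ^ p ^ f' = ζ' →
      ‖((𝓛.Λ q.2.1 ^ (q.2.2.2 : ℕ) * (𝓛.Λ q.1 ^ (q.2.2.1 : ℕ))⁻¹ *
        (Y q.2.1 ^ (q.2.2.2 : ℕ) * (Y q.1 ^ (q.2.2.1 : ℕ))⁻¹) * ζ : Cˣ) : C) -
        (1 + p * ((q.2.2.2 : ℕ) * (κ q.2.1 * ((Y q.2.1 : Cˣ) : C)⁻¹) -
          (q.2.2.1 : ℕ) * (κ q.1 * ((Y q.1 : Cˣ) : C)⁻¹)))‖ ≤ ‖(p : C)‖ ^ 2 →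
      (ν : C) * ∏ i, x i ^ b i = ζ' →
      (fun i => 𝓛.red (xO i)) ∈ T) := by
    rintro ⟨j, l, A, B⟩
    by_cases h : j ≠ l ∧ b l = 0 ∧ 0 < (B : ℕ) ∧
        𝓛.Λ l ^ (B : ℕ) * (𝓛.Λ j ^ (A : ℕ))⁻¹ ∈ GG C p 0 le_rfl one_pos
    · obtain ⟨h1, h2, h3, h4⟩ := h
      obtain ⟨T, hT, hT'⟩ := 𝓛.tame_mix κ h1 h3 (Nat.lt_succ_iff.1 A.2)
        (Nat.lt_succ_iff.1 B.2) h4 hb h2 hb0 hν
      exact ⟨T, hT, fun _ _ _ _ => hT'⟩
    · exact ⟨∅, Set.finite_empty, fun h1 h2 h3 h4 => absurd ⟨h1, h2, h3, h4⟩ h⟩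
  choose T hTfin hTmem using hT
  set S : Set k := ⋃ q : J × Fin n, (fun t : Fin n → k => t q.2) '' (T q.1) with hS
  have hSfin : S.Finite := Set.finite_iUnion fun q => (hTfin q.1).image _
  obtain ⟨G₁, hG₁⟩ := 𝓛.order_bound hSfin
  refine ⟨W * W * (G₁ * p ^ 0) ^ 2, ?_⟩
  intro X x hx hX hall j l hjl hbj hbl τ w a b' c d' hdet hw hjτ hkw ζ o ho hζ hmul
  have hx0 : ∀ i, x i ≠ 0 := fun i => norm_pos_iff.1 (by rw [hall]; exact one_pos)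
  set Y : Fin n → Cˣ := fun i => Units.mk0 (x i) (hx0 i) with hY
  have hYx : ∀ i, (Y i : C) = x i := fun i => rfl
  obtain ⟨A, B, g', s, ζ', ε, hP, -⟩ := 𝓛.PI_of_rel hκ hX (hall j) (hall l) (hYx j) (hYx l)
    hdet hw hjτ hkw
  obtain ⟨o', t, ζ₂, ε₂, ho', hcop₂, hζ₂, hε₂, hζe⟩ := root_decomp (p := p) ho hζ
  have ho'0 : 0 < o' := Nat.pos_of_ne_zero (by
    rintro rfl
    rw [zero_mul] at ho'
    omega)
  have hζ₂0 : ζ₂ ≠ 0 := hζ₂.ne_zero ho'0.ne'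
  have hε₂0 : ε₂ ≠ 0 := hε₂.ne_zero (pow_pos hpf.out.pos _).ne'
  obtain ⟨f₁, hf₁, hff₁⟩ := fixed_of_pow_eq_one (p := p) hP.hcop hP.hζ.pow_eq_one
  obtain ⟨f₂, hf₂, hff₂⟩ := fixed_of_pow_eq_one (p := p) hcop₂ hζ₂.pow_eq_one
  -- monomials
  have hv : Bv M (vec j l A B) := Bv_vec (by have := hP.hAW; omega) (by have := hP.hBW; omega) hjl
  have hvw : LI (vec j l A B) b := LI_vec_off hjl hP.hB hbl hb0
  have hbn : ‖∏ i, x i ^ b i‖ = 1 := mon_norm fun i _ => hall i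
  have hb0' : ∏ i, x i ^ b i ≠ 0 := norm_pos_iff.1 (by rw [hbn]; exact one_pos)
  set F₂ : Cˣ := Units.mk0 _ hb0' with hF₂
  have hF₁ : ((Y l ^ B * (Y j ^ A)⁻¹ : Cˣ) : C) = ∏ i, x i ^ vec j l A B i := by
    rw [prod_vec x hjl (hx0 j), Units.val_mul, Units.val_pow_eq_pow_val, Units.val_inv_eq_inv_val,
      Units.val_pow_eq_pow_val, hYx, hYx]
  have hG₁' := hP.mem_GG (by rw [hYx]; exact hall j) (by rw [hYx]; exact hall l)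
  -- the multiplicative relation
  have hζ₂G : Units.mk0 ζ₂ hζ₂0 ∈ GG C p ‖(p : C)‖ (norm_nonneg _) 𝓛.hp1 :=
    GG_of_close (w := ζ₂) (Nr_of_fixed hf₂ hff₂) (root_norm ho'0 hζ₂.pow_eq_one) (by simp)
  have hG₂' : F₂ * (Units.mk0 ε₂ hε₂0)⁻¹ ∈ GG C p ‖(p : C)‖ (norm_nonneg _) 𝓛.hp1 := by
    have e1 : F₂ * (Units.mk0 ε₂ hε₂0)⁻¹ = ν⁻¹ * Units.mk0 ζ₂ hζ₂0 := by
      apply Units.ext
      have hν0 : (ν : C) ≠ 0 := ν.ne_zero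
      rw [Units.val_mul, Units.val_mul, Units.val_inv_eq_inv_val, Units.val_inv_eq_inv_val]
      show (∏ i, x i ^ b i) * ε₂⁻¹ = (ν : C)⁻¹ * ζ₂
      have e2 : ∏ i, x i ^ b i = (ν : C)⁻¹ * (ζ₂ * ε₂) := by
        rw [← hζe, ← hmul]
        field_simp
      rw [e2]
      field_simp
    rw [e1]
    exact mul_mem (inv_mem (GG_mono (norm_nonneg _) hν)) hζ₂G
  have hε₁u := hP.hε
  have hsupp : ∀ i, vec j l A B i ≠ 0 ∨ b i ≠ 0 → x i ≠ 0 := fun i _ => hx0 i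
  have hs0 : s = 0 ∧ t = 0 := by
    by_contra hcon
    rcases le_total t s with h12 | h12
    · have hs : s ≠ 0 := by rintro rfl; exact hcon ⟨rfl, by omega⟩
      obtain ⟨s', rfl⟩ : ∃ s', s = s' + 1 := ⟨s - 1, by omega⟩
      refine 𝓛.no_wild_gen hx hv hb hvw hsupp hF₁ rfl hP.hε ?_ hG₁' hG₂'
      obtain ⟨q, hq⟩ := Nat.pow_dvd_pow p h12
      rw [Units.val_inv_eq_inv_val, inv_pow, Units.val_mk0, hq, pow_mul, hε₂.pow_eq_one, one_pow,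
        inv_one]
    · have hs : t ≠ 0 := by rintro rfl; exact hcon ⟨by omega, rfl⟩
      obtain ⟨t', rfl⟩ : ∃ t', t = t' + 1 := ⟨t - 1, by omega⟩
      refine 𝓛.no_wild_gen hx hb hv (LI_symm hvw) (fun i _ => hx0 i) (F₁ := F₂) rfl hF₁
        (ε₁ := (Units.mk0 ε₂ hε₂0)⁻¹) (s := t') ?_ ?_ hG₂' hG₁'
      · rw [Units.val_inv_eq_inv_val]
        exact hε₂.inv
      · obtain ⟨q, hq⟩ := Nat.pow_dvd_pow p h12
        rw [hq, pow_mul, hP.hε.pow_eq_one, one_pow]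
  obtain ⟨rfl, rfl⟩ := hs0
  have hε₁ : ε = 1 := Units.ext (by
    have := hP.hε.pow_eq_one
    simpa using this)
  have hε₂' : ε₂ = 1 := by
    have := hε₂.pow_eq_one
    simpa using this
  have e₁ := hP.hexp
  rw [hε₁, mul_one] at e₁
  have hTm := hTmem (j, l, ⟨A, Nat.lt_succ_of_le hP.hAW⟩, ⟨B, Nat.lt_succ_of_le hP.hBW⟩)
    hjl hbl hP.hB hP.hμ x hx (fun i => ⟨x i, (hall i).le⟩) Y
    (fun i => rfl) (fun i => rfl) hall ζ' (Units.mk0 ζ₂ hζ₂0) f₁ f₂ hf₁ hff₁ hf₂ hff₂ e₁ (by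
      rw [hmul, hζe, hε₂', mul_one]
      rfl)
  have hmemS : ∀ i, 𝓛.red ⟨x i, (hall i).le⟩ ∈ S := by
    intro i
    rw [Set.mem_iUnion]
    exact ⟨(_, i), _, hTm, rfl⟩
  have h1 := hG₁ κ Y X j l A B g' 0 ζ' ε hP ⟨x j, (hall j).le⟩ ⟨x l, (hall l).le⟩ rfl rfl
    (hall j) (hall l) (hmemS j) (hmemS l)
  refine ⟨A * B * (g' * p ^ 0) ^ 2, ?_, ?_, hP.hrel⟩
  · have h2 := hpf.out.pos
    have h3 := hP.hA
    have h4 := hP.hB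
    have h5 := hP.hg
    positivity
  · exact Nat.mul_le_mul (Nat.mul_le_mul hP.hAW hP.hBW) (Nat.pow_le_pow_left
      (Nat.mul_le_mul h1 le_rfl) 2)

end Loc

end Pool.Agent.Y226.ZG
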