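import Pool.Agent.Y226.ZM.L2

/-!
# Points near zeros and poles of the coordinates
-/

set_option autoImplicit false
set_option linter.unusedSectionVars false

open UpperHalfPlane H294ZP Polynomial

namespace Pool.Agent.Y226.ZG

open Pool.Agent.Y226 Pool.Agent.Y226.ZM

section int

variable {C : Type} [NormedField C] [IsUltrametricDist C]

/-- integral elements have norm at most one -/
theorem norm_le_one_of_monic {R : Type*} [CommRing R] {ψ : R →+* C} (hψ : ∀ r, ‖ψ r‖ ≤ 1) {x : C}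
    {P : R[X]} (hP : P.Monic) (h : P.eval₂ ψ x = 0) : ‖x‖ ≤ 1 := by
  by_contra hcon
  push Not at hcon
  rw [eval₂_eq_sum_range, Finset.sum_range_succ, hP.coeff_natDegree] at h
  have hx0 : x ≠ 0 := norm_pos_iff.1 (one_pos.trans hcon)
  have hn : P.natDegree ≠ 0 := by
    intro h0
    rw [h0] at h
    simp at h
  obtain ⟨m, hm⟩ : ∃ m, P.natDegree = m + 1 := ⟨P.natDegree - 1, by omega⟩
  rw [hm] at h
  have h1 : x ^ (m + 1) = -∑ i ∈ Finset.range (m + 1), ψ (P.coeff i) * x ^ i := by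
    simp only [map_one, one_mul] at h
    linear_combination h
  have h2 : ‖x ^ (m + 1)‖ ≤ ‖x‖ ^ m := by
    rw [h1, norm_neg]
    refine nsum_le _ _ (by positivity) fun i hi => ?_
    rw [norm_mul, norm_pow]
    calc ‖ψ (P.coeff i)‖ * ‖x‖ ^ i ≤ 1 * ‖x‖ ^ m := by
          gcongr
          · exact hψ _
          · exact hcon.le
          · exact Nat.lt_succ_iff.1 (Finset.mem_range.1 hi)
      _ = ‖x‖ ^ m := one_mul _
  rw [norm_pow] at h2
  have h3 : ‖x‖ ^ m < ‖x‖ ^ (m + 1) := pow_lt_pow_right₀ hcon (Nat.lt_succ_self m)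
  exact absurd h2 (not_le.2 h3)

/-- numbers which are integral over the ring generated by a set -/
theorem norm_le_one_of_adjoin (φ : QA →+* C) {Γ : Set ℂ}
    (hΓ : ∀ γ ∈ Γ, ∃ c : QA, rA c = γ ∧ ‖φ c‖ ≤ 1) {X : QA}
    (hX : IsIntegral (Algebra.adjoin ℤ Γ) (rA X)) : ‖φ X‖ ≤ 1 := by
  set O : Subring QA := (OO C).comap φ with hO
  have hmem : ∀ z ∈ Algebra.adjoin ℤ Γ, ∃ c ∈ O, rA c = z := by
    intro z hz
    refine Algebra.adjoin_induction (p := fun z _ => ∃ c ∈ O, rA c = z) ?_ ?_ ?_ ?_ hz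
    · intro γ hγ
      obtain ⟨c, hc, hc1⟩ := hΓ γ hγ
      exact ⟨c, hc1, hc⟩
    · intro r
      refine ⟨(r : QA), intCast_mem O r, ?_⟩
      simp
    · rintro x y - - ⟨c, hc, rfl⟩ ⟨d, hd, rfl⟩
      exact ⟨c + d, add_mem hc hd, map_add _ _ _⟩
    · rintro x y - - ⟨c, hc, rfl⟩ ⟨d, hd, rfl⟩
      exact ⟨c * d, mul_mem hc hd, map_mul _ _ _⟩
  choose g hg1 hg2 using hmem
  let G : Algebra.adjoin ℤ Γ →+* O :=
    { toFun := fun z => ⟨g z z.2, hg1 z z.2⟩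
      map_one' := Subtype.ext (rA.injective (by
        show rA (g _ _) = rA 1
        rw [hg2, map_one]; rfl))
      map_mul' := fun x y => Subtype.ext (rA.injective (by
        show rA (g _ _) = rA (g _ _ * g _ _)
        rw [hg2, map_mul, hg2, hg2]; rfl))
      map_zero' := Subtype.ext (rA.injective (by
        show rA (g _ _) = rA 0
        rw [hg2, map_zero]; rfl))
      map_add' := fun x y => Subtype.ext (rA.injective (by
        show rA (g _ _) = rA (g _ _ + g _ _)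
        rw [hg2, map_add, hg2, hg2]; rfl)) }
  obtain ⟨P, hP, hPX⟩ := hX
  have h1 : (P.map G).eval₂ (rA.comp O.subtype) (rA X) = 0 := by
    rw [eval₂_map, ← hPX]
    congr 1
    refine RingHom.ext fun z => ?_
    exact hg2 z z.2
  rw [← hom_eval₂] at h1
  have h2 : (P.map G).eval₂ O.subtype X = 0 := by
    apply rA.injective
    rw [h1, map_zero]
  have h3 := congrArg φ h2
  rw [hom_eval₂, map_zero] at h3
  exact norm_le_one_of_monic (fun r => r.2) (hP.map G) h3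

end int

namespace Loc

variable {C : Type} [NormedField C] [IsUltrametricDist C] [CompleteSpace C] [CharZero C]
  [IsAlgClosed C] {p : ℕ} [hpf : Fact p.Prime] {k : Type}
  [Field k] {n N W M d D : ℕ} (𝓛 : Loc C p k n N W M d D)

/-- the residues at the points near zeros and poles are in a finite set -/
theorem resid_bad : ∃ S : Set k, S.Finite ∧ ∀ x : Fin n → C, 𝓛.Pt x → ∀ a, ‖x a‖ ≠ 1 →
    ∀ i, i ≠ a → ∀ u : OO C, (u : C) = x i → 𝓛.red u ∈ S := by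
  refine ⟨⋃ q : Fin n × Bool × Fin n, ((fun y : (PowerSeries 𝓛.R)ˣ =>
      𝓛.χ (PowerSeries.coeff 0 (y : PowerSeries 𝓛.R))) '' {y | y ∈ 𝓛.𝓡.ys q.1 q.2.1 q.2.2}), ?_, ?_⟩
  · refine Set.finite_iUnion fun q => Set.Finite.image _ ?_
    exact Multiset.finite_toSet _
  · intro x hx a ha i hia u hu
    obtain ⟨s, z, e, hz, hC, heX, hn, hs, hroot⟩ := 𝓛.bad_data hx ha
    obtain ⟨y, hy, hxy⟩ := hroot i hia
    rw [Set.mem_iUnion]
    refine ⟨(a, s, i), y, hy, ?_⟩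
    show 𝓛.red (𝓛.ψO _) = _
    symm
    apply 𝓛.red_congr
    show ‖(u : C) - 𝓛.ψ _‖ < 1
    rw [hu, hxy]
    exact (ev_sub_le hC heX hn hz.le _).trans_lt hz

/-- the minimal level of an isogeny between good coordinates -/
theorem level_bound : ∃ G : ℕ, ∀ (X : Fin n → QA) (x : Fin n → C),
    𝓛.Pt x → (∀ i, 𝓛.φ (X i) = 𝓛.Λ i * x i + 𝓛.tm i) → ∀ j l : Fin n, ‖x j‖ = 1 → ‖x l‖ = 1 →
    ∀ τ w : ℍ, rA (X j) = jj τ → rA (X l) = jj w → ∀ N₀ : ℕ, 0 < N₀ →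
    PsiE ιZ (mP N₀) (mD N₀) (jj τ) (jj w) = 0 →
    (∀ N', 0 < N' → PsiE ιZ (mP N') (mD N') (jj τ) (jj w) = 0 → N₀ ≤ N') →
    ∃ A B g' s : ℕ, 0 < A ∧ 0 < B ∧ A ≤ W ∧ B ≤ W ∧ 0 < g' ∧ g'.Coprime p ∧
      N₀ = A * B * (g' * p ^ s) ^ 2 ∧ ((∃ a, ‖x a‖ ≠ 1) → g' ≤ G) := by
  classical
  choose κ hκ using 𝓛.exists_κ
  obtain ⟨S, hS, hSx⟩ := 𝓛.resid_bad
  obtain ⟨G, hG⟩ := 𝓛.order_bound hS
  refine ⟨G, ?_⟩
  intro X x hx hX j l hj hl τ w hjτ hkw N₀ hN₀ hΨ hmin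
  have hYex : ∀ i, ∃ y : Cˣ, ‖x i‖ = 1 → (y : C) = x i := by
    intro i
    by_cases h : ‖x i‖ = 1
    · exact ⟨Units.mk0 (x i) (norm_pos_iff.1 (by rw [h]; exact one_pos)), fun _ => rfl⟩
    · exact ⟨1, fun h' => absurd h' h⟩
  choose Y hY using hYex
  obtain ⟨ι, _, α, δ, β, h, h1, h2, h3, h4, h5⟩ := modular_spec N₀ hN₀
  rw [← h4] at hΨ
  obtain ⟨q, -, hq⟩ := Finset.prod_eq_zero_iff.1 hΨ
  have hww : jj w = jj (h q τ) := sub_eq_zero.1 hq
  have hdet : (0 : ℤ) < (α q : ℤ) * (δ q : ℤ) - β q * 0 := by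
    have := (h1 q).2.2
    have h6 : (α q : ℤ) * (δ q : ℤ) = N₀ := by exact_mod_cast this
    rw [h6]
    simpa using hN₀
  obtain ⟨A, B, g', s, ζ', ε, hP, -, hh, hh0, hlev⟩ := 𝓛.PI_of_rel hκ hX hj hl (hY j hj) (hY l hl)
    (τ := τ) (w := h q τ) (a := α q) (b := β q) (c := 0) (d' := δ q) hdet (by
      have := h2 q τ
      push_cast
      rw [zero_mul, zero_add]
      exact this) hjτ (by rw [hkw, hww])
  have hlev' : A * B * (g' * p ^ s) ^ 2 * hh ^ 2 = N₀ := by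
    have h6 : (α q : ℤ) * (δ q : ℤ) = N₀ := by exact_mod_cast (h1 q).2.2
    rw [h6, mul_zero, sub_zero] at hlev
    exact_mod_cast hlev
  have hpos : 0 < A * B * (g' * p ^ s) ^ 2 := by
    have h2 := hpf.out.pos
    have h3 := hP.hA
    have h4 := hP.hB
    have h5 := hP.hg
    positivity
  have hle : N₀ ≤ A * B * (g' * p ^ s) ^ 2 := by
    refine hmin _ hpos ?_
    rw [hww]
    have := hP.hrel
    rw [hjτ, hkw, hww] at this
    exact this
  have hNeq : N₀ = A * B * (g' * p ^ s) ^ 2 := by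
    refine le_antisymm hle ?_
    rw [← hlev']
    exact Nat.le_mul_of_pos_right _ (pow_pos hh0 2)
  refine ⟨A, B, g', s, hP.hA, hP.hB, hP.hAW, hP.hBW, hP.hg, hP.hcop, hNeq, ?_⟩
  rintro ⟨a, ha⟩
  refine hG κ Y X j l A B g' s ζ' ε hP ⟨x j, hj.le⟩ ⟨x l, hl.le⟩ (hY j hj).symm
    (hY l hl).symm (by rw [hY j hj]; exact hj) (by rw [hY l hl]; exact hl) ?_ ?_
  · exact hSx x hx a ha j (by rintro rfl; exact ha hj) _ rfl
  · exact hSx x hx a ha l (by rintro rfl; exact ha hl) _ rfl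

/-- a multiplicative relation near a zero or a pole of a coordinate -/
theorem mul_bad (ν : Cˣ) (hν : ‖(ν : C)‖ = 1) (b : Fin n → ℤ) : ∃ G : ℕ, ∀ (x : Fin n → C),
    𝓛.Pt x → (∃ a, ‖x a‖ ≠ 1) → (∀ i, b i ≠ 0 → ‖x i‖ = 1) → ∀ (ζ : C) (o : ℕ), 0 < o →
    IsPrimitiveRoot ζ o → (ν : C) * ∏ i, x i ^ b i = ζ →
    ∃ o' s : ℕ, 0 < o' ∧ o' ≤ G ∧ o'.Coprime p ∧ o = o' * p ^ s := by
  classical
  obtain ⟨S, hS, hSx⟩ := 𝓛.resid_bad
  obtain ⟨G, hG⟩ := 𝓛.order_bound_mul hS ν hν b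
  refine ⟨G, ?_⟩
  rintro x hx ⟨a, ha⟩ hx1 ζ o ho hζ hrel
  obtain ⟨o', t, ζ₂, ε₂, ho', hcop₂, hζ₂, hε₂, hζe⟩ := root_decomp (p := p) ho hζ
  have ho'0 : 0 < o' := Nat.pos_of_ne_zero (by
    rintro rfl
    rw [zero_mul] at ho'
    omega)
  have hex : ∀ i, ∃ u : OO C, b i ≠ 0 → (u : C) = x i := by
    intro i
    by_cases h : b i = 0
    · exact ⟨0, fun h' => absurd h h'⟩
    · exact ⟨⟨x i, (hx1 i h).le⟩, fun _ => rfl⟩
  choose xO hxO using hex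
  refine ⟨o', t, ho'0, ?_, hcop₂, ho'⟩
  refine hG x xO hxO (fun i hi => by rw [hxO i hi]; exact hx1 i hi) (fun i hi => ?_) o' t ζ₂ ε₂
    ho'0 hcop₂ hζ₂ hε₂ (by rw [hrel, hζe])
  exact hSx x hx a ha i (by rintro rfl; exact ha (hx1 _ hi)) _ (hxO i hi)

end Loc

end Pool.Agent.Y226.ZG
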