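import Pool.Agent.Y226.ZG.Glob3

/-!
# The Tate relation with the exact determinant
-/

set_option autoImplicit false
set_option linter.unusedSectionVars false

open UpperHalfPlane H294ZP Polynomial

namespace Pool.Agent.Y226.ZM

open Pool.Agent.Y226 Pool.Agent.Y226.ZG

section padic

variable {C : Type} [NormedField C] [IsUltrametricDist C] [CompleteSpace C] [CharZero C]
  {ψ : ZZ →+* C} (hψ : ∀ z, ‖ψ z‖ ≤ 1)

include hψ

/-- the Tate relation -/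
theorem tate_rel3 [IsAlgClosed C] {K₀ : Type} [Field K₀] {i₀ : ZZ →+* K₀} {ρ : K₀ →+* ℂ}
    {φ : K₀ →+* C} (hρ : ρ.comp i₀ = ιZ) (hφ : φ.comp i₀ = ψ)
    {τ w : ℍ} {a b c d : ℤ} (hdet : 0 < a * d - b * c) (hw : (w : ℂ) * (c * τ + d) = a * τ + b)
    {X Y : K₀} (hX : ρ X = jj τ) (hY : ρ Y = jj w) (hXn : 1 < ‖φ X‖) :
    ∃ (A B g : ℕ) (ζ : C), 0 < A ∧ 0 < B ∧ A.Coprime B ∧ 0 < g ∧ IsPrimitiveRoot ζ g ∧
      qT ψ (φ Y) ^ B = ζ * qT ψ (φ X) ^ A ∧ 1 < ‖φ Y‖ ∧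
      PsiE ιZ (mP (A * B * g ^ 2)) (mD (A * B * g ^ 2)) (jj τ) (jj w) = 0 ∧
      ∃ h : ℕ, 0 < h ∧ ((A * B * g ^ 2 * h ^ 2 : ℕ) : ℤ) = a * d - b * c := by
  obtain ⟨N, hN⟩ : ∃ N : ℕ, (N : ℤ) = a * d - b * c := ⟨(a * d - b * c).toNat, by omega⟩
  have hN0 : 0 < N := by
    have : (0 : ℤ) < N := by rw [hN]; exact hdet
    exact_mod_cast this
  have hi₀ : Function.Injective i₀ := by
    have : Function.Injective (ρ.comp i₀) := by rw [hρ]; exact Subtype.val_injective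
    exact Function.Injective.of_comp (f := ρ) this
  have hψi : Function.Injective ψ := by
    rw [← hφ]
    exact φ.injective.comp hi₀
  obtain ⟨-, -, -, -, -, -, -, -, -, -, h5⟩ := modular_spec N hN0
  have hrel := h5 τ w a b c d hN.symm hw
  have hrelC : PsiE ψ (mP N) (mD N) (φ X) (φ Y) = 0 := by
    have h1 : ρ (PsiE i₀ (mP N) (mD N) X Y) = 0 := by
      rw [map_PsiE, hρ, hX, hY, hrel]
    have h2 : PsiE i₀ (mP N) (mD N) X Y = 0 := by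
      apply ρ.injective; rw [h1, map_zero]
    have h3 := congrArg φ h2
    rwa [map_PsiE, hφ, map_zero] at h3
  have hq1 := qT_lt hψ hXn
  have hq0 := qT_ne hψ hXn
  obtain ⟨Q, hQ⟩ := IsAlgClosed.exists_pow_nat_eq (qT ψ (φ X)) hN0
  have hQ0 : Q ≠ 0 := by
    rintro rfl
    rw [zero_pow hN0.ne'] at hQ
    exact hq0 hQ.symm
  have hQ1 : ‖Q‖ < 1 := by
    by_contra hcon
    push Not at hcon
    have : 1 ≤ ‖Q ^ N‖ := by rw [norm_pow]; exact one_le_pow₀ hcon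
    rw [hQ] at this
    exact absurd hq1 (not_lt.2 this)
  have hJX : JC ψ (Q ^ N) = φ X := by rw [hQ]; exact JC_qT hψ hXn
  rw [← hJX] at hrelC
  obtain ⟨α, δ, β, hα, hδ, hαδ, hYe⟩ := psi_roots hψ hN0 hQ0 hQ1 hrelC
  -- reduce the matrix
  set h0 := Nat.gcd (Nat.gcd α δ) β.natAbs with hh0
  have hg0 : 0 < Nat.gcd α δ := Nat.gcd_pos_of_pos_left _ hα
  have hh0pos : 0 < h0 := Nat.gcd_pos_of_pos_left _ hg0
  obtain ⟨α', hα'⟩ : h0 ∣ α := (Nat.gcd_dvd_left _ _).trans (Nat.gcd_dvd_left _ _)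
  obtain ⟨δ', hδ'⟩ : h0 ∣ δ := (Nat.gcd_dvd_left _ _).trans (Nat.gcd_dvd_right _ _)
  obtain ⟨β', hβ'⟩ : (h0 : ℤ) ∣ β := Int.natCast_dvd.2 (Nat.gcd_dvd_right _ _)
  have hα'0 : 0 < α' := Nat.pos_of_ne_zero (by rintro rfl; simp at hα'; omega)
  have hδ'0 : 0 < δ' := Nat.pos_of_ne_zero (by rintro rfl; simp at hδ'; omega)
  set cc := Nat.gcd α' δ' with hcc
  have hcc0 : 0 < cc := Nat.gcd_pos_of_pos_left _ hα'0
  obtain ⟨A, hA⟩ : cc ∣ α' := Nat.gcd_dvd_left _ _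
  obtain ⟨B, hB⟩ : cc ∣ δ' := Nat.gcd_dvd_right _ _
  have hA0 : 0 < A := Nat.pos_of_ne_zero (by rintro rfl; simp at hA; omega)
  have hB0 : 0 < B := Nat.pos_of_ne_zero (by rintro rfl; simp at hB; omega)
  have hAB : A.Coprime B := by
    have h1 : cc * Nat.gcd A B = cc := by
      rw [← Nat.gcd_mul_left, ← hA, ← hB]
    have h2 : Nat.gcd A B = 1 := by
      have : cc * Nat.gcd A B = cc * 1 := by rw [h1, mul_one]
      exact Nat.eq_of_mul_eq_mul_left hcc0 this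
    exact h2
  have hcop : IsCoprime β' (cc : ℤ) := by
    rw [Int.isCoprime_iff_nat_coprime, Int.natAbs_natCast]
    have h1 : h0 * Nat.gcd cc β'.natAbs = h0 := by
      rw [← Nat.gcd_mul_left]
      have e1 : h0 * cc = Nat.gcd α δ := by rw [hcc, ← Nat.gcd_mul_left, ← hα', ← hδ']
      have e2 : h0 * β'.natAbs = β.natAbs := by
        rw [hβ', Int.natAbs_mul, Int.natAbs_natCast]
      rw [e1, e2]
    have h2 : Nat.gcd cc β'.natAbs = 1 := by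
      have : h0 * Nat.gcd cc β'.natAbs = h0 * 1 := by rw [h1, mul_one]
      exact Nat.eq_of_mul_eq_mul_left hh0pos this
    exact (Nat.coprime_comm.1 h2)
  have heZ : eZ β δ hδ = eZ β' δ' hδ'0 := by
    apply Subtype.ext
    show Complex.exp (2 * Real.pi * Complex.I * β / δ) =
      Complex.exp (2 * Real.pi * Complex.I * β' / δ')
    congr 1
    have e1 : (β : ℂ) = h0 * β' := by rw [hβ']; push_cast; ring
    have e2 : (δ : ℂ) = h0 * δ' := by rw [hδ']; push_cast; ring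
    have e3 : (h0 : ℂ) ≠ 0 := by exact_mod_cast hh0pos.ne'
    have e4 : (δ' : ℂ) ≠ 0 := by exact_mod_cast hδ'0.ne'
    rw [e1, e2]
    field_simp
  have heZB : eZ β' δ' hδ'0 ^ B = eZ β' cc hcc0 := by
    apply Subtype.ext
    show (Complex.exp (2 * Real.pi * Complex.I * β' / δ')) ^ B =
      Complex.exp (2 * Real.pi * Complex.I * β' / cc)
    rw [← Complex.exp_nat_mul]
    congr 1
    have e2 : (δ' : ℂ) = cc * B := by rw [hB]; push_cast; ring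
    have e3 : (cc : ℂ) ≠ 0 := by exact_mod_cast hcc0.ne'
    have e4 : (B : ℂ) ≠ 0 := by exact_mod_cast hB0.ne'
    rw [e2]
    field_simp
  rw [heZ] at hYe
  -- the parameter of `Y`
  have huu : ψ (eZ β' δ' hδ'0) * ψ (eZ (-β') δ' hδ'0) = 1 := by
    rw [← map_mul, eZ_mul, map_one]
  have hu0 : ψ (eZ β' δ' hδ'0) ≠ 0 := left_ne_zero_of_mul_eq_one huu
  have hα2 : α ^ 2 ≠ 0 := pow_ne_zero _ hα.ne'
  have hz0 : ψ (eZ β' δ' hδ'0) * Q ^ (α ^ 2) ≠ 0 := mul_ne_zero hu0 (pow_ne_zero _ hQ0)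
  have hz1 : ‖ψ (eZ β' δ' hδ'0) * Q ^ (α ^ 2)‖ < 1 :=
    (nmul_le (hψ _) le_rfl).trans_lt (by rw [norm_pow]; exact pow_lt_one₀ (norm_nonneg _) hQ1 hα2)
  have hYn : 1 < ‖φ Y‖ := by rw [hYe]; exact JC_norm hψ hz1 hz0
  have hqY : qT ψ (φ Y) = ψ (eZ β' δ' hδ'0) * Q ^ (α ^ 2) := by
    rw [hYe]; exact qT_JC hψ hz1 hz0
  refine ⟨A, B, cc, ψ (eZ β' cc hcc0), hA0, hB0, hAB, hcc0, ?_, ?_, hYn, ?_, h0, hh0pos, ?_⟩
  · exact (eZ_prim β' hcc0 hcop).map_of_injective hψi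
  · rw [hqY, mul_pow, ← map_pow, heZB, ← pow_mul, ← hQ, ← pow_mul]
    congr 2
    have : α ^ 2 * B = N * A := by
      rw [← hαδ, hα', hδ', hB, hA]; ring
    exact this
  · have hN' : α' * δ' = A * B * cc ^ 2 := by rw [hA, hB]; ring
    have hQ'0 : Q ^ (h0 ^ 2) ≠ 0 := pow_ne_zero _ hQ0
    have hQ'1 : ‖Q ^ (h0 ^ 2)‖ < 1 := by
      rw [norm_pow]; exact pow_lt_one₀ (norm_nonneg _) hQ1 (pow_ne_zero _ hh0pos.ne')
    have h7 := psi_of_param hψ β' hα'0 hδ'0 hN' hQ'0 hQ'1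
    have e1 : (Q ^ (h0 ^ 2)) ^ (A * B * cc ^ 2) = Q ^ N := by
      rw [← pow_mul, ← hN', ← hαδ]
      congr 1
      rw [hα', hδ']; ring
    have e2 : (Q ^ (h0 ^ 2)) ^ (α' ^ 2) = Q ^ (α ^ 2) := by
      rw [← pow_mul]
      congr 1
      rw [hα']; ring
    rw [e1, e2, hJX, ← hYe] at h7
    have h8 : φ (PsiE i₀ (mP (A * B * cc ^ 2)) (mD (A * B * cc ^ 2)) X Y) = 0 := by
      rw [map_PsiE, hφ, h7]
    have h9 : PsiE i₀ (mP (A * B * cc ^ 2)) (mD (A * B * cc ^ 2)) X Y = 0 := by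
      apply φ.injective; rw [h8, map_zero]
    have h10 := congrArg ρ h9
    rwa [map_PsiE, hρ, map_zero, hX, hY] at h10
  · rw [← hN, ← hαδ, hα', hδ', hA, hB]
    push_cast
    ring

end padic

variable {C : Type} [NormedField C] [IsUltrametricDist C] [CompleteSpace C] [CharZero C]
  [IsAlgClosed C]
variable {p : ℕ} [hpf : Fact p.Prime]

/-- the relation between two good coordinates of the same class -/
theorem pair_info3 (φ : QA →+* C) (hp0 : 0 < ‖(p : C)‖) (hp1 : ‖(p : C)‖ < 1) {Λj Λk pu : Cˣ}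
    (hpu : (pu : C) = p) {wj wk e : ℕ} (he : 0 < e) (hwj : 0 < wj) (hwk : 0 < wk)
    (hΛj : Λj * pu ^ (wj * e) ∈ GG C p 0 le_rfl one_pos)
    (hΛk : Λk * pu ^ (wk * e) ∈ GG C p 0 le_rfl one_pos) {κj κk : OO C} {mj mk : C}
    (hκj : (p : C) * κj * Λj = φ (iA (cj 1)) - mj) (hκk : (p : C) * κk * Λk = φ (iA (cj 1)) - mk)
    {Xj Xk : QA} {Yj Yk : Cˣ} (hYj : ‖(Yj : C)‖ = 1) (hYk : ‖(Yk : C)‖ = 1)
    (hxj : φ Xj = Λj * Yj + mj) (hxk : φ Xk = Λk * Yk + mk) {τ w : ℍ} {a b c d' : ℤ}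
    (hdet : 0 < a * d' - b * c) (hw : (w : ℂ) * (c * τ + d') = a * τ + b)
    (hjτ : rA Xj = jj τ) (hkw : rA Xk = jj w) :
    ∃ (A B g' s : ℕ) (ζ' ε : Cˣ), 0 < A ∧ 0 < B ∧ A.Coprime B ∧ B * wk = A * wj ∧ 0 < g' ∧
      g'.Coprime p ∧ IsPrimitiveRoot (ζ' : C) g' ∧ IsPrimitiveRoot (ε : C) (p ^ s) ∧
      Λk ^ B * (Λj ^ A)⁻¹ ∈ GG C p 0 le_rfl one_pos ∧
      ‖((Λk ^ B * (Λj ^ A)⁻¹ * (Yk ^ B * (Yj ^ A)⁻¹) * (ζ' * ε) : Cˣ) : C) -
        (1 + p * (B * (κk * ((Yk : Cˣ) : C)⁻¹) - A * (κj * ((Yj : Cˣ) : C)⁻¹)))‖ ≤ ‖(p : C)‖ ^ 2 ∧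
      PsiE ιZ (mP (A * B * (g' * p ^ s) ^ 2)) (mD (A * B * (g' * p ^ s) ^ 2)) (rA Xj) (rA Xk) = 0 ∧
      ∃ h : ℕ, 0 < h ∧ ((A * B * (g' * p ^ s) ^ 2 * h ^ 2 : ℕ) : ℤ) = a * d' - b * c := by
  set ψ := φ.comp iA with hψdef
  have hψ : ∀ z, ‖ψ z‖ ≤ 1 := psi_norm φ
  have hΛjn := Lam_norm hp0 hpu hΛj
  have hΛkn := Lam_norm hp0 hpu hΛk
  have hbig : ∀ w : ℕ, 0 < w → ‖(p : C)‖ ^ (w * e) ≤ ‖(p : C)‖ := fun w hw =>
    pow_le_of_le_one (norm_nonneg _) hp1.le (Nat.mul_pos hw he).ne'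
  have hΛ1 : ∀ w : ℕ, 0 < w → 1 < ‖(p : C)‖⁻¹ ^ (w * e) := by
    intro w hw
    rw [inv_pow]
    exact (one_lt_inv₀ (pow_pos hp0 _)).2 ((hbig w hw).trans_lt hp1)
  have hinv : ∀ w : ℕ, (‖(p : C)‖⁻¹ ^ (w * e))⁻¹ = ‖(p : C)‖ ^ (w * e) := by
    intro w; rw [inv_pow, inv_inv]
  obtain ⟨hnj0, ej2⟩ := tate_lin hψ hp1 (Λ := Λj) (Y := Yj) (by rw [hΛjn, hinv]; exact hbig _ hwj)
    hYj κj.2 hκj hxj
  obtain ⟨hnk0, ek2⟩ := tate_lin hψ hp1 (Λ := Λk) (Y := Yk) (by rw [hΛkn, hinv]; exact hbig _ hwk)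
    hYk κk.2 hκk hxk
  have hnj : ‖φ Xj‖ = ‖(p : C)‖⁻¹ ^ (wj * e) := by rw [hnj0, hΛjn]
  have hnk : ‖φ Xk‖ = ‖(p : C)‖⁻¹ ^ (wk * e) := by rw [hnk0, hΛkn]
  have hj1 : 1 < ‖φ Xj‖ := by rw [hnj]; exact hΛ1 _ hwj
  have hk1 : 1 < ‖φ Xk‖ := by rw [hnk]; exact hΛ1 _ hwk
  obtain ⟨A, B, g, ζ, hA, hB, hAB, hg, hζ, hq, -, hΨ, hlev⟩ :=
    tate_rel3 (ψ := ψ) (i₀ := iA) hψ rA_comp rfl hdet hw hjτ hkw hj1
  have hζn : ‖ζ‖ = 1 := by
    have h1 : ‖ζ‖ ^ g = 1 := by rw [← norm_pow, hζ.pow_eq_one, norm_one]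
    exact (pow_eq_one_iff_of_nonneg (norm_nonneg _) hg.ne').1 h1
  have hABw : B * wk = A * wj := by
    have h1 := congrArg norm hq
    rw [norm_mul, norm_pow, norm_pow, hζn, one_mul, qT_norm hψ hk1, qT_norm hψ hj1, hnj, hnk,
      hinv, hinv, ← pow_mul, ← pow_mul] at h1
    have h3 := pow_right_injective₀ hp0 hp1.ne h1
    have h4 : B * wk * e = A * wj * e := by
      have : wk * e * B = wj * e * A := h3
      calc B * wk * e = wk * e * B := by ring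
        _ = wj * e * A := this
        _ = A * wj * e := by ring
    exact Nat.eq_of_mul_eq_mul_right he h4
  obtain ⟨g', s, ζ', ε, hgg, hg'p, hζ', hε, hζe⟩ := root_decomp (p := p) hg hζ
  have hg'0 : 0 < g' := Nat.pos_of_ne_zero (by
    rintro rfl
    rw [zero_mul] at hgg
    omega)
  have hζ'0 : ζ' ≠ 0 := hζ'.ne_zero hg'0.ne'
  have hε0 : ε ≠ 0 := hε.ne_zero (pow_pos hpf.out.pos _).ne'
  refine ⟨A, B, g', s, Units.mk0 ζ' hζ'0, Units.mk0 ε hε0, hA, hB, hAB, hABw, hg'0, hg'p, hζ', hε,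
    ?_, ?_, ?_, ?_⟩
  · -- the unit part
    have h1 := mul_mem (pow_mem hΛk B) (inv_mem (pow_mem hΛj A))
    have e1 : (Λk * pu ^ (wk * e)) ^ B * ((Λj * pu ^ (wj * e)) ^ A)⁻¹ = Λk ^ B * (Λj ^ A)⁻¹ := by
      rw [mul_pow, mul_pow, ← pow_mul, ← pow_mul, mul_inv]
      have e2 : wk * e * B = wj * e * A := by
        calc wk * e * B = (B * wk) * e := by ring
          _ = (A * wj) * e := by rw [hABw]
          _ = wj * e * A := by ring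
      rw [e2]
      have e3 : Λk ^ B * pu ^ (wj * e * A) * ((Λj ^ A)⁻¹ * (pu ^ (wj * e * A))⁻¹) =
        Λk ^ B * (Λj ^ A)⁻¹ * (pu ^ (wj * e * A) * (pu ^ (wj * e * A))⁻¹) := by ac_rfl
      rw [e3, mul_inv_cancel, mul_one]
    rwa [e1] at h1
  · -- second order expansion
    set qj := qT ψ (φ Xj) with hqj
    set qk := qT ψ (φ Xk) with hqk
    have hΛj0 : (Λj : C) ≠ 0 := Λj.ne_zero
    have hΛk0 : (Λk : C) ≠ 0 := Λk.ne_zero
    have hYj0 : (Yj : C) ≠ 0 := Yj.ne_zero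
    have hYk0 : (Yk : C) ≠ 0 := Yk.ne_zero
    have hqj0 : qj ≠ 0 := qT_ne hψ hj1
    have haj : ‖(κj : C) * (Yj : C)⁻¹‖ ≤ 1 :=
      nmul_le κj.2 (by rw [norm_inv, hYj, inv_one])
    have hak : ‖(κk : C) * (Yk : C)⁻¹‖ ≤ 1 :=
      nmul_le κk.2 (by rw [norm_inv, hYk, inv_one])
    set aj := (κj : C) * (Yj : C)⁻¹ with haj'
    set ak := (κk : C) * (Yk : C)⁻¹ with hak'
    set uj := qj * (Λj * Yj) with huj
    set uk := qk * (Λk * Yk) with huk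
    have hu1 : ∀ {u a : C}, ‖a‖ ≤ 1 → ‖u - (1 + p * a)‖ ≤ ‖(p : C)‖ ^ 2 →
        ‖u - 1‖ ≤ ‖(p : C)‖ := by
      intro u a ha h
      have : u - 1 = (u - (1 + p * a)) + p * a := by ring
      rw [this]
      exact nadd_le (h.trans (pow_le_of_le_one (norm_nonneg _) hp1.le two_ne_zero))
        (nmul_le' le_rfl ha)
    have huj1 : ‖uj‖ = 1 := neq_one ((hu1 haj ej2).trans_lt hp1) norm_one
    have huk1 : ‖uk‖ = 1 := neq_one ((hu1 hak ek2).trans_lt hp1) norm_one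
    have huj0 : uj ≠ 0 := norm_pos_iff.1 (by rw [huj1]; exact one_pos)
    have fj := pow_expand hp1.le haj ej2 huj1.le A
    have fk := pow_expand hp1.le hak ek2 huk1.le B
    have hAj : ‖(A : C) * aj‖ ≤ 1 := nmul_le (nnat A) haj
    have hBk : ‖(B : C) * ak‖ ≤ 1 := nmul_le (nnat B) hak
    have e3 : ((Λk ^ B * (Λj ^ A)⁻¹ * (Yk ^ B * (Yj ^ A)⁻¹) *
        (Units.mk0 ζ' hζ'0 * Units.mk0 ε hε0) : Cˣ) : C) = uk ^ B * (uj ^ A)⁻¹ := by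
      simp only [Units.val_mul, Units.val_inv_eq_inv_val, Units.val_pow_eq_pow_val, Units.val_mk0]
      rw [huk, huj, mul_pow, mul_pow, hq, ← hζe, mul_pow, mul_pow]
      field_simp
    rw [e3]
    have e4 : uk ^ B * (uj ^ A)⁻¹ - (1 + p * (B * ak - A * aj)) =
        ((uk ^ B - (1 + p * (B * ak))) - (uj ^ A - (1 + p * (A * aj))) -
          (uj ^ A - 1) * (p * (B * ak - A * aj))) * (uj ^ A)⁻¹ := by
      have : uj ^ A ≠ 0 := pow_ne_zero _ huj0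
      field_simp
      ring
    rw [e4]
    refine nmul_le' (nsub_le (nsub_le fk fj) ?_) ?_
    · rw [norm_mul, sq]
      have h1 := hu1 hAj fj
      have h2 : ‖(p : C) * (B * ak - A * aj)‖ ≤ ‖(p : C)‖ := nmul_le' le_rfl (nsub_le hBk hAj)
      have := norm_nonneg (uj ^ A - 1)
      gcongr
    · rw [norm_inv, norm_pow, huj1, one_pow, inv_one]
  · rw [hjτ, hkw, ← hgg]
    exact hΨ
  · rw [← hgg]
    exact hlev

end Pool.Agent.Y226.ZM
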